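import Pool.Agent.Lib.MP_b63a06_co.DV.Spec

/-!
# Module AVG: averaging over the automorphisms
-/

set_option autoImplicit false

namespace Pool.Agent.Lib.MPb63a06.DV

namespace AVGM

variable {V : Type} [Fintype V] [DecidableEq V] {G : SimpleGraph V}

/-- The number of automorphisms with `g x = y`. -/
noncomputable def N (G : SimpleGraph V) [Fintype (G ≃g G)] (x y : V) : ℕ :=
  (Finset.univ.filter fun g : G ≃g G => g x = y).card

omit [Fintype V] in
theorem N_eq [Fintype (G ≃g G)] (htr : ∀ u v : V, ∃ φ : G ≃g G, φ u = v) (x y y' : V) :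
    N G x y = N G x y' := by
  obtain ⟨h, hh⟩ := htr y y'
  unfold N
  apply Finset.card_bij (fun g _ => g.trans h)
  · intro g hg
    rw [Finset.mem_filter] at hg ⊢
    refine ⟨Finset.mem_univ _, ?_⟩
    rw [RelIso.trans_apply, hg.2, hh]
  · intro g _ g' _ he
    ext z
    have := congrArg (fun f : G ≃g G => h.symm (f z)) he
    simpa using this
  · intro g hg
    rw [Finset.mem_filter] at hg
    refine ⟨g.trans h.symm, ?_, ?_⟩
    · rw [Finset.mem_filter]
      refine ⟨Finset.mem_univ _, ?_⟩
      rw [RelIso.trans_apply, hg.2, ← hh]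
      simp
    · ext z
      simp

theorem N_sum [Fintype (G ≃g G)] (x : V) : ∑ y, N G x y = Fintype.card (G ≃g G) := by
  unfold N
  rw [← Finset.card_univ]
  exact (Finset.card_eq_sum_card_fiberwise (fun _ _ => Finset.mem_univ _)).symm

theorem N_card [Fintype (G ≃g G)] (htr : ∀ u v : V, ∃ φ : G ≃g G, φ u = v) (x y : V) :
    Fintype.card V * N G x y = Fintype.card (G ≃g G) := by
  rw [← N_sum (G := G) x, Finset.sum_congr rfl (fun y' _ => N_eq htr x y' y),
    Finset.sum_const, Finset.card_univ, smul_eq_mul]

end AVGM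

open AVGM in
theorem specAVG : SpecAVG := by
  intro V _ _ G htr I R j hI hR
  classical
  have hfin : Finite (G ≃g G) :=
    Finite.of_injective (fun g : G ≃g G => (g : V → V)) (fun a b h => by
      ext z; exact congrFun h z)
  let _ : Fintype (G ≃g G) := Fintype.ofFinite _
  have hpos : 0 < Fintype.card (G ≃g G) := Fintype.card_pos_iff.2 ⟨RelIso.refl _⟩
  -- each image of I meets R in at most j vertices
  have h1 : ∀ g : G ≃g G, (I.filter fun x => g x ∈ R).card ≤ j := by
    intro g
    have hc : ((I.filter fun x => g x ∈ R).image g).card = (I.filter fun x => g x ∈ R).card :=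
      Finset.card_image_of_injective _ g.injective
    rw [← hc]
    apply hR
    · intro y hy
      rw [Finset.mem_image] at hy
      obtain ⟨x, hx, rfl⟩ := hy
      exact (Finset.mem_filter.1 hx).2
    · intro a ha b hb hab
      rw [Finset.mem_coe, Finset.mem_image] at ha hb
      obtain ⟨x, hx, rfl⟩ := ha
      obtain ⟨y, hy, rfl⟩ := hb
      intro hadj
      exact hI (Finset.mem_filter.1 hx).1 (Finset.mem_filter.1 hy).1
        (fun h => hab (by rw [h])) (g.map_adj_iff.1 hadj)
  -- double counting
  have h2 : ∑ g : G ≃g G, (I.filter fun x => g x ∈ R).card = ∑ x ∈ I, ∑ y ∈ R, N G x y := by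
    have e1 : ∀ g : G ≃g G, (I.filter fun x => g x ∈ R).card =
        ∑ x ∈ I, ∑ y ∈ R, if g x = y then 1 else 0 := by
      intro g
      rw [Finset.card_filter]
      apply Finset.sum_congr rfl
      intro x _
      rw [Finset.sum_ite_eq]
    rw [Finset.sum_congr rfl (fun g _ => e1 g), Finset.sum_comm]
    apply Finset.sum_congr rfl
    intro x _
    rw [Finset.sum_comm]
    apply Finset.sum_congr rfl
    intro y _
    unfold N
    rw [Finset.card_filter]
  have h3 : Fintype.card V * ∑ g : G ≃g G, (I.filter fun x => g x ∈ R).card =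
      I.card * R.card * Fintype.card (G ≃g G) := by
    rw [h2, Finset.mul_sum]
    have e2 : ∀ x ∈ I, Fintype.card V * ∑ y ∈ R, N G x y = R.card * Fintype.card (G ≃g G) := by
      intro x _
      rw [Finset.mul_sum, Finset.sum_congr rfl (fun y _ => N_card htr x y), Finset.sum_const,
        smul_eq_mul]
    rw [Finset.sum_congr rfl e2, Finset.sum_const, smul_eq_mul, mul_assoc]
  have h4 : ∑ g : G ≃g G, (I.filter fun x => g x ∈ R).card ≤ Fintype.card (G ≃g G) * j := by
    refine (Finset.sum_le_sum fun g _ => h1 g).trans ?_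
    rw [Finset.sum_const, Finset.card_univ, smul_eq_mul]
  have h5 : I.card * R.card * Fintype.card (G ≃g G) ≤
      j * Fintype.card V * Fintype.card (G ≃g G) := by
    rw [← h3]
    calc Fintype.card V * ∑ g : G ≃g G, (I.filter fun x => g x ∈ R).card
        ≤ Fintype.card V * (Fintype.card (G ≃g G) * j) := Nat.mul_le_mul_left _ h4
      _ = j * Fintype.card V * Fintype.card (G ≃g G) := by ring
  exact Nat.le_of_mul_le_mul_right h5 hpos

end Pool.Agent.Lib.MPb63a06.DV
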