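import Pool.Agent.Lib.MP_b63a06_co.DV.SpecB

/-!
# COL: the colouring with the triples of the family, pairs and a clique
-/

set_option autoImplicit false

namespace Pool.Agent.Lib.MPb63a06.DV

namespace COLM

theorem card_rest {V : Type} [Fintype V] [DecidableEq V] (G : SimpleGraph V) (F : Finset (Finset V))
    (h : Pk G F) : (rest F).card + 3 * F.card = Fintype.card V := by
  have h1 : (F.biUnion id).card = 3 * F.card := by
    rw [Finset.card_biUnion]
    · rw [Finset.sum_congr rfl (fun s hs => (show (id s).card = 3 from (h.tri s hs).1))]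
      rw [Finset.sum_const, smul_eq_mul, mul_comm]
    · intro s hs t ht hst
      exact h.dis s hs t ht hst
  have h2 : (Finset.univ \ F.biUnion id).card + (F.biUnion id).card = (Finset.univ : Finset V).card :=
    Finset.card_sdiff_add_card_eq_card (Finset.subset_univ _)
  unfold rest
  rw [← h1, h2, Finset.card_univ]

end COLM

open Classical in
theorem specCOL (hGRE : SpecGRE) : SpecCOL := by
  intro V _ _ G F h
  obtain ⟨c0, ⟨f0, hf0, hf1⟩, hc0⟩ := hGRE V G (rest F)
  have hcard := COLM.card_rest G F h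
  -- the index of a member
  let idx : Finset V → ℕ := fun s => if hs : s ∈ F then ((F.equivFin ⟨s, hs⟩ : Fin F.card) : ℕ) else 0
  have idx_lt : ∀ s ∈ F, idx s < F.card := by
    intro s hs
    show (if hs : s ∈ F then ((F.equivFin ⟨s, hs⟩ : Fin F.card) : ℕ) else 0) < F.card
    rw [dif_pos hs]
    exact (F.equivFin ⟨s, hs⟩).2
  have idx_inj : ∀ s ∈ F, ∀ t ∈ F, idx s = idx t → s = t := by
    intro s hs t ht hst
    have hst' : (if hs : s ∈ F then ((F.equivFin ⟨s, hs⟩ : Fin F.card) : ℕ) else 0) =
        (if ht : t ∈ F then ((F.equivFin ⟨t, ht⟩ : Fin F.card) : ℕ) else 0) := hst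
    rw [dif_pos hs, dif_pos ht] at hst'
    have := F.equivFin.injective (Fin.ext hst')
    exact congrArg Subtype.val this
  -- the member of a vertex
  let mem : V → Finset V := fun x => if hx : ∃ s ∈ F, x ∈ s then hx.choose else ∅
  have mem_spec : ∀ x, (∃ s ∈ F, x ∈ s) → mem x ∈ F ∧ x ∈ mem x := by
    intro x hx
    have e : mem x = hx.choose := dif_pos hx
    rw [e]
    exact hx.choose_spec
  let f : V → ℕ := fun x => if ∃ s ∈ F, x ∈ s then c0 + idx (mem x) else f0 x
  have f_pos : ∀ x, (∃ s ∈ F, x ∈ s) → f x = c0 + idx (mem x) := fun x hx => if_pos hx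
  have f_neg : ∀ x, ¬ (∃ s ∈ F, x ∈ s) → f x = f0 x := fun x hx => if_neg hx
  have rest_mem : ∀ x, ¬ (∃ s ∈ F, x ∈ s) → x ∈ rest F := by
    intro x hx
    unfold rest
    rw [Finset.mem_sdiff]
    refine ⟨Finset.mem_univ _, ?_⟩
    rw [Finset.mem_biUnion]
    exact hx
  refine ⟨c0 + F.card, ⟨f, ?_, ?_⟩, ?_⟩
  · intro x _
    by_cases hx : ∃ s ∈ F, x ∈ s
    · rw [f_pos x hx]
      have := idx_lt _ (mem_spec x hx).1
      omega
    · rw [f_neg x hx]
      have := hf0 x (rest_mem x hx)
      omega
  · intro x _ y _ hxy hf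
    by_cases hx : ∃ s ∈ F, x ∈ s
    · by_cases hy : ∃ s ∈ F, y ∈ s
      · rw [f_pos x hx, f_pos y hy] at hf
        have hm : mem x = mem y := idx_inj _ (mem_spec x hx).1 _ (mem_spec y hy).1 (by omega)
        have h1 := (mem_spec x hx).2
        have h2 := (mem_spec y hy).2
        rw [← hm] at h2
        have hi := (h.tri _ (mem_spec x hx).1).2
        exact hi (Finset.mem_coe.mpr h1) (Finset.mem_coe.mpr h2) hxy.ne hxy
      · rw [f_pos x hx, f_neg y hy] at hf
        have := hf0 y (rest_mem y hy)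
        omega
    · by_cases hy : ∃ s ∈ F, y ∈ s
      · rw [f_neg x hx, f_pos y hy] at hf
        have := hf0 x (rest_mem x hx)
        omega
      · rw [f_neg x hx, f_neg y hy] at hf
        exact hf1 x (rest_mem x hx) y (rest_mem y hy) hxy hf
  · omega

end Pool.Agent.Lib.MPb63a06.DV
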