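import Pool.Agent.Lib.MP_b63a06_co.DV.SpecB

/-!
# CTG (MP_b63a06_co): counting independent triples
-/

set_option autoImplicit false

namespace Pool.Agent.Lib.MPb63a06.DV

namespace CTGM

open Finset

lemma mem_trip {V : Type} [Fintype V] (G : SimpleGraph V) (s : Finset V) :
    s ∈ trip G ↔ Tri G s := by
  unfold trip
  simp

lemma deg3_eq {V : Type} [Fintype V] [DecidableEq V] (G : SimpleGraph V) (v : V) :
    deg3 G v = ∑ s ∈ trip G, if v ∈ s then 1 else 0 := by
  unfold deg3
  rw [Finset.card_filter]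
  refine Finset.sum_congr rfl fun s _ => ?_
  by_cases h : v ∈ s <;> simp [h]

lemma dc {V : Type} [Fintype V] [DecidableEq V] (G : SimpleGraph V) (A : Finset V) :
    ∑ s ∈ trip G, (s ∩ A).card = ∑ w ∈ A, deg3 G w := by
  have h : ∀ s ∈ trip G, (s ∩ A).card = ∑ w ∈ A, if w ∈ s then 1 else 0 := by
    intro s _
    rw [Finset.inter_comm, ← Finset.filter_mem_eq_inter, Finset.card_filter]
  rw [Finset.sum_congr rfl h, Finset.sum_comm]
  exact Finset.sum_congr rfl fun w _ => (deg3_eq G w).symm

/-- the set covered by the family -/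
def W {V : Type} [DecidableEq V] (F : Finset (Finset V)) : Finset V := F.biUnion id

lemma rest_eq {V : Type} [Fintype V] [DecidableEq V] (F : Finset (Finset V)) :
    rest F = univ \ W F := rfl

lemma sub_W {V : Type} [DecidableEq V] {F : Finset (Finset V)} {τ : Finset V} (h : τ ∈ F) :
    τ ⊆ W F := by
  intro x hx
  exact mem_biUnion.2 ⟨τ, h, hx⟩

lemma card_W {V : Type} [Fintype V] [DecidableEq V] {G : SimpleGraph V}
    {F : Finset (Finset V)} (h : Pk G F) : (W F).card = 3 * F.card := by
  unfold W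
  rw [Finset.card_biUnion]
  · rw [Finset.sum_congr rfl fun s hs => (show (id s : Finset V).card = 3 from (h.tri s hs).1),
      Finset.sum_const, smul_eq_mul, mul_comm]
  · intro s hs t ht hst
    exact h.dis s hs t ht hst

/-- the triples with exactly one point in the set covered by the family -/
noncomputable def P1 {V : Type} [Fintype V] [DecidableEq V] (G : SimpleGraph V) (F : Finset (Finset V)) :
    Finset (Finset V) := (trip G).filter fun s => (s ∩ W F).card = 1

lemma card_P1 (hXIN : SpecXIN) {V : Type} [Fintype V] [DecidableEq V] {G : SimpleGraph V}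
    {F : Finset (Finset V)} {r : ℕ} (h : Pk G F) (hr : ∀ v, deg3 G v = r) :
    (P1 G F).card ≤ F.card * (r + 1) := by
  have hsub : P1 G F ⊆ F.biUnion fun τ =>
      (trip G).filter fun s => s ⊆ rest F ∪ τ ∧ (s ∩ τ).card = 1 := by
    intro s hs
    unfold P1 at hs
    rw [mem_filter] at hs
    obtain ⟨hsP, hs1⟩ := hs
    obtain ⟨w, hw⟩ := card_eq_one.1 hs1
    have hw' : w ∈ s ∩ W F := by rw [hw]; exact mem_singleton_self w
    rw [mem_inter] at hw'
    obtain ⟨τ, hτ, hwτ⟩ := mem_biUnion.1 hw'.2
    have hwτ' : w ∈ τ := hwτ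
    have huniq : ∀ x ∈ s, x ∈ W F → x = w := by
      intro x hx hxW
      have : x ∈ s ∩ W F := mem_inter.2 ⟨hx, hxW⟩
      rw [hw] at this
      exact mem_singleton.1 this
    refine mem_biUnion.2 ⟨τ, hτ, ?_⟩
    rw [mem_filter]
    refine ⟨hsP, ?_, ?_⟩
    · intro x hx
      by_cases hxW : x ∈ W F
      · rw [huniq x hx hxW]
        exact mem_union_right _ hwτ'
      · refine mem_union_left _ ?_
        rw [rest_eq]
        exact mem_sdiff.2 ⟨mem_univ _, hxW⟩
    · rw [card_eq_one]
      refine ⟨w, ?_⟩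
      ext x
      rw [mem_inter, mem_singleton]
      constructor
      · rintro ⟨hx, hxτ⟩
        exact huniq x hx (sub_W hτ hxτ)
      · rintro rfl
        exact ⟨hw'.1, hwτ'⟩
  refine (card_le_card hsub).trans (card_biUnion_le.trans ?_)
  refine (Finset.sum_le_card_nsmul _ _ (r + 1) fun τ hτ => ?_).trans (by rw [smul_eq_mul])
  refine hXIN V G (rest F) τ r h.res (h.tri τ hτ) ?_ (h.exch τ hτ) fun v => (hr v).le
  rw [rest_eq]
  exact (disjoint_sdiff).mono_left (sub_W hτ)

lemma key {V : Type} [Fintype V] [DecidableEq V] {G : SimpleGraph V}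
    {F : Finset (Finset V)} (h : Pk G F) (s : Finset V) (hs : s ∈ trip G) :
    2 + (if s ∈ F then 1 else 0) ≤ (s ∩ W F).card + if (s ∩ W F).card = 1 then 1 else 0 := by
  have hT : Tri G s := (mem_trip G s).1 hs
  by_cases hF : s ∈ F
  · rw [inter_eq_left.2 (sub_W hF), hT.1]
    simp [hF]
  · have h1 : 1 ≤ (s ∩ W F).card := by
      by_contra h0
      have h2 : s ∩ W F = ∅ := card_eq_zero.1 (by omega)
      have h3 : s ⊆ rest F := by
        intro x hx
        rw [rest_eq]
        refine mem_sdiff.2 ⟨mem_univ _, fun hxW => ?_⟩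
        have : x ∈ s ∩ W F := mem_inter.2 ⟨hx, hxW⟩
        rw [h2] at this
        exact notMem_empty x this
      have h4 := h.res s h3 hT.2
      rw [hT.1] at h4
      omega
    rw [if_neg hF]
    split_ifs with h5 <;> omega

end CTGM

open CTGM Finset in
theorem specCTG (hXIN : SpecXIN) : SpecCTG := by
  intro V _ _ G F r hP hr1 hr
  have hA : ∑ s ∈ trip G, (s ∩ W F).card = 3 * F.card * r := by
    rw [dc, Finset.sum_congr rfl fun w _ => hr w, Finset.sum_const, smul_eq_mul, card_W hP]
  have hB : 3 * (trip G).card = Fintype.card V * r := by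
    have h1 := dc G (univ : Finset V)
    rw [Finset.sum_congr rfl fun w _ => hr w, Finset.sum_const, smul_eq_mul, card_univ] at h1
    rw [← h1]
    have h2 : ∀ s ∈ trip G, (s ∩ (univ : Finset V)).card = 3 := by
      intro s hs
      rw [inter_univ]
      exact ((mem_trip G s).1 hs).1
    rw [Finset.sum_congr rfl h2, Finset.sum_const, smul_eq_mul, mul_comm]
  have hC := Finset.sum_le_sum fun s hs => key hP s hs
  rw [Finset.sum_add_distrib, Finset.sum_add_distrib, hA, Finset.sum_const, smul_eq_mul,
    ← Finset.card_filter, ← Finset.card_filter] at hC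
  have hD : (trip G).filter (fun s => s ∈ F) = F := by
    ext s
    rw [mem_filter]
    exact ⟨fun h => h.2, fun h => ⟨(mem_trip G s).2 (hP.tri s h), h⟩⟩
  have hE : ((trip G).filter fun s => (s ∩ W F).card = 1).card ≤ F.card * (r + 1) :=
    card_P1 hXIN hP hr
  rw [hD] at hC
  have hG : 2 * (trip G).card ≤ 4 * F.card * r := by nlinarith
  have hH : Fintype.card V * r ≤ 6 * F.card * r := by nlinarith
  exact Nat.le_of_mul_le_mul_right hH hr1

end Pool.Agent.Lib.MPb63a06.DV
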