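import Pool.Agent.Lib.MP_b63a06_co.DV.SpecB

/-!
# MP_b63a06_co, module DEG: in a vertex-transitive graph all vertices are in equally many independent triples
-/

set_option autoImplicit false

namespace Pool.Agent.Lib.MPb63a06.DV

namespace DEGM

theorem le {V : Type} [Fintype V] (G : SimpleGraph V) (φ : G ≃g G) (u : V) :
    deg3 G u ≤ deg3 G (φ u) := by
  classical
  unfold deg3
  refine Finset.card_le_card_of_injOn (fun s => s.map φ.toEquiv.toEmbedding) ?_ ?_
  · intro s hs
    simp only [Finset.coe_filter, Set.mem_setOf_eq, trip, Finset.mem_filter, Finset.mem_univ,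
      true_and] at hs ⊢
    refine ⟨⟨?_, ?_⟩, ?_⟩
    · rw [Finset.card_map]; exact hs.1.1
    · intro x hx y hy hne
      rw [Finset.mem_coe, Finset.mem_map] at hx hy
      obtain ⟨a, ha, rfl⟩ := hx
      obtain ⟨b, hb, rfl⟩ := hy
      have hab : a ≠ b := fun h => hne (by rw [h])
      have h1 := hs.1.2 (Finset.mem_coe.2 ha) (Finset.mem_coe.2 hb) hab
      intro h
      exact h1 (φ.map_rel_iff.1 h)
    · rw [Finset.mem_map]
      exact ⟨u, hs.2, rfl⟩
  · exact fun s _ t _ h => Finset.map_injective _ h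

end DEGM

theorem specDEG : SpecDEG := by
  intro V _ _ G htr u v
  obtain ⟨φ, hφ⟩ := htr u v
  obtain ⟨ψ, hψ⟩ := htr v u
  apply le_antisymm
  · rw [← hφ]; exact DEGM.le G φ u
  · rw [← hψ]; exact DEGM.le G ψ v

end Pool.Agent.Lib.MPb63a06.DV
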