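import Pool.Agent.Lib.MP_b63a06_co.DV.Spec

/-!
# Module FIN: the theorem
-/

set_option autoImplicit false

namespace Pool.Agent.Lib.MPb63a06.DV

namespace FINM

variable {V : Type} [Fintype V] [DecidableEq V] {G : SimpleGraph V}

omit [DecidableEq V] in
theorem colorable_of_clr {c : ℕ} (h : Clr G Finset.univ c) : G.Colorable c := by
  obtain ⟨f, hf, hp⟩ := h
  refine ⟨SimpleGraph.Coloring.mk (fun x => (⟨f x, hf x (Finset.mem_univ x)⟩ : Fin c)) ?_⟩
  intro x y hxy he
  exact hp x (Finset.mem_univ x) y (Finset.mem_univ y) hxy (congrArg Fin.val he)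

omit [DecidableEq V] in
theorem al_indepNum : Al G G.indepNum Finset.univ := fun _ _ hs =>
  SimpleGraph.IsIndepSet.card_le_indepNum hs

theorem harm : ∀ a : ℕ, 3 ≤ a → 9 * (2 * harmonic a - 1) ≤ 8 * (a : ℚ) := by
  intro a ha
  induction a, ha using Nat.le_induction with
  | base => norm_num [harmonic, Finset.sum_range_succ]
  | succ a ha ih =>
    rw [harmonic_succ]
    have h1 : (3 : ℚ) ≤ a := by exact_mod_cast ha
    have h2 : ((a + 1 : ℕ) : ℚ)⁻¹ ≤ 1 / 4 := by
      rw [inv_le_comm₀ (by positivity) (by norm_num)]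
      push_cast
      linarith
    push_cast at h2 ⊢
    linarith

theorem half_le_ceil (E : ℕ) : E / 2 ≤ ⌈((E : ℕ) : ℚ) / 2⌉₊ := by
  have h : ((E / 2 : ℕ) : ℚ) ≤ (⌈((E : ℕ) : ℚ) / 2⌉₊ : ℚ) := by
    refine le_trans ?_ (Nat.le_ceil _)
    have := Nat.div_mul_le_self E 2
    have h' : ((E / 2 : ℕ) : ℚ) * 2 ≤ E := by exact_mod_cast this
    linarith
  exact_mod_cast h

theorem le_ceil {E c : ℕ} (h : 2 * c ≤ E + 1) : c ≤ ⌈((E : ℕ) : ℚ) / 2⌉₊ := by
  rcases c with _ | c
  · exact Nat.zero_le _
  · rw [Nat.succ_le_iff, Nat.lt_ceil]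
    have h' : ((2 * (c + 1) : ℕ) : ℚ) ≤ ((E + 1 : ℕ) : ℚ) := by exact_mod_cast h
    push_cast at h'
    linarith

end FINM

open FINM in
theorem specFIN (hAVG : SpecAVG) (hHRM : SpecHRM) (hTWO : SpecTWO) : SpecFIN := by
  intro V _ _ G _ htr
  obtain ⟨I, hI⟩ := SimpleGraph.exists_isNIndepSet_indepNum (G := G)
  have hal := al_indepNum (G := G)
  have hpair : ∀ x y : V, x ≠ y → ¬ G.Adj x y → 2 ≤ G.indepNum := by
    intro x y hne hxy
    have h1 : G.IsIndepSet (({x, y} : Finset V) : Set V) := by
      intro a ha b hb hab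
      simp only [Finset.coe_insert, Finset.coe_singleton, Set.mem_insert_iff,
        Set.mem_singleton_iff] at ha hb
      rcases ha with rfl | rfl <;> rcases hb with rfl | rfl
      · exact absurd rfl hab
      · exact hxy
      · exact fun h => hxy h.symm
      · exact absurd rfl hab
    have h2 := h1.card_le_indepNum
    rwa [Finset.card_pair hne] at h2
  have part1 : ∃ c : ℕ, G.Colorable c ∧ 2 * (c : ℚ) ≤ G.cliqueNum +
      (2 * harmonic G.indepNum - 1) * (Fintype.card V : ℚ) / G.indepNum := by
    by_cases h2 : 2 ≤ G.indepNum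
    · have hk : 0 < G.indepNum := by omega
      obtain ⟨c, hc, hle⟩ := hHRM V G G.indepNum hk (fun R j hR => by
        have := hAVG V G htr I R j hI.isIndepSet hR
        rwa [hI.card_eq] at this) G.indepNum h2 Finset.univ hal
      refine ⟨c, colorable_of_clr hc, ?_⟩
      rw [Finset.card_univ] at hle
      have hk' : (G.indepNum : ℚ) ≠ 0 := by exact_mod_cast hk.ne'
      have e : (2 * harmonic G.indepNum - 1) * (Fintype.card V : ℚ) / G.indepNum =
          2 * ((Fintype.card V : ℚ) / G.indepNum + (Fintype.card V : ℚ) / G.indepNum *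
            (harmonic G.indepNum - 3 / 2)) := by
        field_simp
        ring
      rw [e]
      linarith
    · have hcomp : ∀ x y : V, x ≠ y → G.Adj x y := by
        intro x y hne
        by_contra hxy
        exact h2 (hpair x y hne hxy)
      have hcl : Fintype.card V ≤ G.cliqueNum := by
        have h1 : G.IsClique ((Finset.univ : Finset V) : Set V) := by
          intro x _ y _ hne
          exact hcomp x y hne
        have := h1.card_le_cliqueNum
        rwa [Finset.card_univ] at this
      refine ⟨Fintype.card V, G.colorable_of_fintype, ?_⟩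
      have hcl' : (Fintype.card V : ℚ) ≤ G.cliqueNum := by exact_mod_cast hcl
      have h01 : G.indepNum = 0 ∨ G.indepNum = 1 := by omega
      rcases h01 with h0 | h1
      · have hempty : IsEmpty V := by
          refine ⟨fun v => ?_⟩
          have h1 : G.IsIndepSet (({v} : Finset V) : Set V) := by
            simp [SimpleGraph.IsIndepSet]
          have h2 := h1.card_le_indepNum
          rw [Finset.card_singleton, h0] at h2
          omega
        rw [Fintype.card_eq_zero]
        simp
      · rw [h1]
        have : harmonic 1 = 1 := by simp [harmonic]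
        rw [this]
        push_cast
        linarith
  have part2 : (2 * harmonic G.indepNum - 1) * (Fintype.card V : ℚ) ≤
      G.indepNum * (G.maxDegree + 1) → G.Colorable ((G.cliqueNum + G.maxDegree + 1) / 2) := by
    intro h
    obtain ⟨c, hc, hle⟩ := part1
    refine hc.mono ?_
    rw [Nat.le_div_iff_mul_le (by norm_num)]
    have hX : (2 * harmonic G.indepNum - 1) * (Fintype.card V : ℚ) / G.indepNum ≤
        (G.maxDegree : ℚ) + 1 := by
      rcases Nat.eq_zero_or_pos G.indepNum with h0 | h0
      · rw [h0]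
        push_cast
        rw [div_zero]
        positivity
      · rw [div_le_iff₀ (by exact_mod_cast h0)]
        linarith
    have : ((c * 2 : ℕ) : ℚ) ≤ ((G.cliqueNum + G.maxDegree + 1 : ℕ) : ℚ) := by
      push_cast
      linarith
    exact_mod_cast this
  refine ⟨part1, part2, ?_⟩
  intro h
  by_cases h3 : 3 ≤ G.indepNum
  · have hh := harm G.indepNum h3
    have hn : (0 : ℚ) ≤ (Fintype.card V : ℚ) := by positivity
    have ha : (0 : ℚ) ≤ (G.indepNum : ℚ) := by positivity
    have h' : 8 * (Fintype.card V : ℚ) ≤ 9 * ((G.maxDegree : ℚ) + 1) := by exact_mod_cast h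
    have hc := part2 (by
      have e1 := mul_le_mul_of_nonneg_right hh hn
      have e2 := mul_le_mul_of_nonneg_left h' ha
      nlinarith [e1, e2])
    refine (hc.chromaticNumber_le).trans ?_
    exact_mod_cast half_le_ceil (G.cliqueNum + G.maxDegree + 1)
  · obtain ⟨c, hc, hle⟩ := hTWO V G (fun s hs hi => (hal s hs hi).trans (by omega))
    refine ((colorable_of_clr hc).chromaticNumber_le).trans ?_
    exact_mod_cast le_ceil (E := G.cliqueNum + G.maxDegree + 1) (c := c) (by omega)

end Pool.Agent.Lib.MPb63a06.DV
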