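import Pool.Agent.Lib.MP_b63a06_co.DV.SpecB
import Pool.Agent.Lib.MP_b63a06_co.DV.FIN

/-!
# Module FIB: the theorem, second form
-/

set_option autoImplicit false

namespace Pool.Agent.Lib.MPb63a06.DV

namespace FIBM

theorem harm : ∀ a : ℕ, 4 ≤ a → 6 * (2 * harmonic a - 1) ≤ 5 * (a : ℚ) := by
  intro a ha
  induction a, ha using Nat.le_induction with
  | base => norm_num [harmonic, Finset.sum_range_succ]
  | succ a ha ih =>
    rw [harmonic_succ]
    have h1 : (4 : ℚ) ≤ a := by exact_mod_cast ha
    have h2 : ((a + 1 : ℕ) : ℚ)⁻¹ ≤ 1 / 5 := by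
      rw [inv_le_comm₀ (by positivity) (by norm_num)]
      push_cast
      linarith
    push_cast at h2 ⊢
    linarith

end FIBM

open FIBM FINM in
theorem specFIB (hFIN : SpecFIN) (hTWO : SpecTWO) (hMXF : SpecMXF) (hDEG : SpecDEG)
    (hCTG : SpecCTG) (hCOL : SpecCOL) : SpecFIB := by
  intro V _ _ G _ htr
  obtain ⟨part1, part2, -⟩ := hFIN V G htr
  refine ⟨part1, part2, ?_⟩
  intro h
  have hal := al_indepNum (G := G)
  rcases le_or_gt 4 G.indepNum with h4 | h4
  · have hh := FIBM.harm G.indepNum h4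
    have hn : (0 : ℚ) ≤ (Fintype.card V : ℚ) := by positivity
    have ha : (0 : ℚ) ≤ (G.indepNum : ℚ) := by positivity
    have h' : 5 * (Fintype.card V : ℚ) ≤ 6 * ((G.maxDegree : ℚ) + 1) := by exact_mod_cast h
    have hc := part2 (by
      have e1 := mul_le_mul_of_nonneg_right hh hn
      have e2 := mul_le_mul_of_nonneg_left h' ha
      nlinarith [e1, e2])
    refine (hc.chromaticNumber_le).trans ?_
    exact_mod_cast half_le_ceil (G.cliqueNum + G.maxDegree + 1)
  · rcases Nat.lt_or_ge 2 G.indepNum with h2 | h2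
    · have h3 : G.indepNum = 3 := by omega
      obtain ⟨I, hI⟩ := SimpleGraph.exists_isNIndepSet_indepNum (G := G)
      have hT : Tri G I := ⟨hI.card_eq.trans h3, hI.isIndepSet⟩
      have hne : I.Nonempty := by
        rw [← Finset.card_pos, hT.1]
        norm_num
      obtain ⟨v, hv⟩ := hne
      have hr : 1 ≤ deg3 G v := by
        unfold deg3
        rw [Nat.one_le_iff_ne_zero, ← Nat.pos_iff_ne_zero, Finset.card_pos]
        refine ⟨I, ?_⟩
        simp only [trip, Finset.mem_filter, Finset.mem_univ, true_and]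
        exact ⟨hT, hv⟩
      obtain ⟨F, hF⟩ := hMXF V G
      have h6 := hCTG V G F (deg3 G v) hF hr (fun u => hDEG V G htr u v)
      obtain ⟨c, hc, hle⟩ := hCOL V G F hF
      refine ((colorable_of_clr hc).chromaticNumber_le).trans ?_
      exact_mod_cast le_ceil (E := G.cliqueNum + G.maxDegree + 1) (c := c) (by omega)
    · obtain ⟨c, hc, hle⟩ := hTWO V G (fun s hs hi => (hal s hs hi).trans (by omega))
      refine ((colorable_of_clr hc).chromaticNumber_le).trans ?_
      exact_mod_cast le_ceil (E := G.cliqueNum + G.maxDegree + 1) (c := c) (by omega)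

end Pool.Agent.Lib.MPb63a06.DV
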