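import Pool.Agent.Lib.MP_b63a06_co.DV.Spec

/-!
# MP_b63a06_co, module GRE: pairs of non-adjacent vertices and a clique
-/

set_option autoImplicit false

namespace Pool.Agent.Lib.MPb63a06.DV

namespace GREM

variable {V : Type} [Fintype V] [DecidableEq V]

/-- Colouring a pair of non-adjacent vertices with a new colour. -/
theorem add_pair (G : SimpleGraph V) (R : Finset V) (x y : V) (hnadj : ¬ G.Adj x y) (c : ℕ)
    (h : Clr G ((R.erase x).erase y) c) : Clr G R (c + 1) := by
  obtain ⟨f, h1, h2⟩ := h
  have hmem : ∀ v ∈ R, ¬ (v = x ∨ v = y) → v ∈ (R.erase x).erase y := by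
    intro v hv hne
    rw [not_or] at hne
    exact Finset.mem_erase.2 ⟨hne.2, Finset.mem_erase.2 ⟨hne.1, hv⟩⟩
  refine ⟨fun v => if v = x ∨ v = y then c else f v, ?_, ?_⟩
  · intro v hv
    by_cases hc : v = x ∨ v = y
    · simp only [hc, if_true]
      omega
    · simp only [hc, if_false]
      have := h1 v (hmem v hv hc)
      omega
  · intro u hu v hv huv
    by_cases hcu : u = x ∨ u = y
    · by_cases hcv : v = x ∨ v = y
      · exfalso
        rcases hcu with rfl | rfl
        · rcases hcv with rfl | rfl
          · exact G.loopless.irrefl _ huv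
          · exact hnadj huv
        · rcases hcv with rfl | rfl
          · exact hnadj huv.symm
          · exact G.loopless.irrefl _ huv
      · simp only [hcu, hcv, if_true, if_false]
        have := h1 v (hmem v hv hcv)
        omega
    · by_cases hcv : v = x ∨ v = y
      · simp only [hcu, hcv, if_true, if_false]
        have := h1 u (hmem u hu hcu)
        omega
      · simp only [hcu, hcv, if_false]
        exact h2 u (hmem u hu hcu) v (hmem v hv hcv) huv

/-- Every finite set can be coloured with as many colours as it has elements. -/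
theorem clr_card (G : SimpleGraph V) (R : Finset V) : Clr G R R.card := by
  refine ⟨fun v => if h : v ∈ R then ((R.equivFin ⟨v, h⟩ : Fin R.card) : ℕ) else 0, ?_, ?_⟩
  · intro v hv
    simp only [hv, dif_pos]
    exact (R.equivFin ⟨v, hv⟩).2
  · intro u hu v hv huv heq
    simp only [hu, hv, dif_pos] at heq
    have h1 := R.equivFin.injective (Fin.ext heq)
    have h2 : u = v := congrArg Subtype.val h1
    exact huv.ne h2

theorem main (G : SimpleGraph V) : ∀ (n : ℕ) (R : Finset V), R.card = n →
    ∃ c : ℕ, Clr G R c ∧ 2 * c ≤ G.cliqueNum + R.card := by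
  intro n
  induction n using Nat.strong_induction_on with
  | _ n ih =>
    intro R hR
    by_cases hcl : G.IsClique (R : Set V)
    · refine ⟨R.card, clr_card G R, ?_⟩
      have := hcl.card_le_cliqueNum
      omega
    · have hex : ∃ x ∈ R, ∃ y ∈ R, x ≠ y ∧ ¬ G.Adj x y := by
        by_contra hno
        push Not at hno
        apply hcl
        intro x hx y hy hne
        exact hno x (Finset.mem_coe.1 hx) y (Finset.mem_coe.1 hy) hne
      obtain ⟨x, hx, y, hy, hne, hnadj⟩ := hex
      have hy' : y ∈ R.erase x := Finset.mem_erase.2 ⟨hne.symm, hy⟩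
      have e1 : ((R.erase x).erase y).card + 1 = (R.erase x).card := Finset.card_erase_add_one hy'
      have e2 : (R.erase x).card + 1 = R.card := Finset.card_erase_add_one hx
      obtain ⟨c, hc1, hc2⟩ := ih _ (by omega) ((R.erase x).erase y) rfl
      exact ⟨c + 1, add_pair G R x y hnadj c hc1, by omega⟩

end GREM

theorem specGRE : SpecGRE := by
  intro V _ _ G R
  exact GREM.main G R.card R rfl

end Pool.Agent.Lib.MPb63a06.DV
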