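import Pool.Agent.Lib.MP_b63a06_co.DV.Spec

/-!
# MP_b63a06_co, module DV.HRM: the greedy colouring
-/

set_option autoImplicit false

namespace Pool.Agent.Lib.MPb63a06.DV

namespace HRMM

variable {V : Type}

/-- a new colour for an independent set -/
theorem clr_add [DecidableEq V] {G : SimpleGraph V} {R s : Finset V} {c : ℕ}
    (hi : G.IsIndepSet (s : Set V)) (h : Clr G (R \ s) c) : Clr G R (c + 1) := by
  obtain ⟨f, hf1, hf2⟩ := h
  refine ⟨fun x => if x ∈ s then c else f x, fun x hx => ?_, fun x hx y hy hxy => ?_⟩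
  · by_cases hs : x ∈ s
    · simp [hs]
    · have h1 := hf1 x (Finset.mem_sdiff.mpr ⟨hx, hs⟩)
      simp only [hs, if_false]
      omega
  · by_cases hs : x ∈ s
    · by_cases ht : y ∈ s
      · exact absurd hxy (hi (Finset.mem_coe.mpr hs) (Finset.mem_coe.mpr ht) hxy.ne)
      · have h1 := hf1 y (Finset.mem_sdiff.mpr ⟨hy, ht⟩)
        simp only [hs, ht, if_true, if_false]
        omega
    · have h1 := hf1 x (Finset.mem_sdiff.mpr ⟨hx, hs⟩)
      by_cases ht : y ∈ s
      · simp only [hs, ht, if_true, if_false]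
        omega
      · simp only [hs, ht, if_false]
        exact hf2 x (Finset.mem_sdiff.mpr ⟨hx, hs⟩) y (Finset.mem_sdiff.mpr ⟨hy, ht⟩) hxy

theorem al_mono {G : SimpleGraph V} {R R' : Finset V} {j : ℕ} (h : Al G j R) (hR : R' ⊆ R) :
    Al G j R' := fun s hs hi => h s (hs.trans hR) hi

theorem harm2 : harmonic 2 = 3 / 2 := by
  show harmonic (1 + 1) = 3 / 2
  rw [harmonic_succ, show (1 : ℕ) = 0 + 1 from rfl, harmonic_succ, harmonic_zero]
  norm_num

end HRMM

open HRMM in
theorem specHRM (hGRE : SpecGRE) : SpecHRM := by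
  intro V _ _ G k hk hR j hj
  induction j, hj using Nat.le_induction with
  | base =>
    intro R _
    obtain ⟨c, hc1, hc2⟩ := hGRE V G R
    refine ⟨c, hc1, ?_⟩
    rw [harm2]
    have h1 : (2 : ℚ) * c ≤ (G.cliqueNum : ℚ) + (R.card : ℚ) := by exact_mod_cast hc2
    push_cast
    linarith
  | succ j hj ih =>
    intro R
    induction hn : R.card using Nat.strong_induction_on generalizing R with
    | _ m ihm =>
      intro hAl
      have hj0 : (0 : ℚ) < (j : ℚ) := by exact_mod_cast (by omega : 0 < j)
      have hk0 : (0 : ℚ) < (k : ℚ) := by exact_mod_cast hk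
      by_cases hex : ∃ s : Finset V, s ⊆ R ∧ G.IsIndepSet (s : Set V) ∧ s.card = j + 1
      · obtain ⟨s, hs, hi, hcard⟩ := hex
        have hle : s.card ≤ R.card := Finset.card_le_card hs
        have hc : (R \ s).card = R.card - s.card := Finset.card_sdiff_of_subset hs
        obtain ⟨c, hc1, hc2⟩ := ihm (R \ s).card (by omega) (R \ s) rfl
          (al_mono hAl Finset.sdiff_subset)
        refine ⟨c + 1, clr_add hi hc1, ?_⟩
        have h1 : ((R \ s).card : ℚ) = (m : ℚ) - ((j : ℚ) + 1) := by
          have h2 : (R \ s).card + (j + 1) = m := by omega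
          have h3 : ((R \ s).card : ℚ) + ((j : ℚ) + 1) = (m : ℚ) := by exact_mod_cast h2
          linarith
        rw [h1] at hc2
        push_cast at hc2 ⊢
        have h4 : ((m : ℚ) - ((j : ℚ) + 1)) / ((j : ℚ) + 1) = (m : ℚ) / ((j : ℚ) + 1) - 1 := by
          rw [sub_div, div_self (by positivity)]
        rw [h4] at hc2
        linarith
      · have hAl' : Al G j R := by
          intro s hs hi
          by_contra hcon
          obtain ⟨t, ht, htc⟩ := Finset.exists_subset_card_eq (show j + 1 ≤ s.card by omega)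
          exact hex ⟨t, ht.trans hs, hi.mono (Finset.coe_subset.mpr ht), htc⟩
        obtain ⟨c, hc1, hc2⟩ := ih R hAl'
        refine ⟨c, hc1, hc2.trans ?_⟩
        have h1 := hR R j hAl'
        rw [hn] at h1 ⊢
        have h2 : (k : ℚ) * m ≤ (j : ℚ) * Fintype.card V := by exact_mod_cast h1
        rw [harmonic_succ]
        push_cast
        have h3 : (m : ℚ) / j - m / ((j : ℚ) + 1) ≤ (Fintype.card V : ℚ) / k * ((j : ℚ) + 1)⁻¹ := by
          have h4 : (m : ℚ) / j - m / ((j : ℚ) + 1) = m / (j * ((j : ℚ) + 1)) := by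
            field_simp
            ring
          have h5 : (Fintype.card V : ℚ) / k * ((j : ℚ) + 1)⁻¹ =
              (Fintype.card V : ℚ) / (k * ((j : ℚ) + 1)) := by
            field_simp
          rw [h4, h5, div_le_div_iff₀ (by positivity) (by positivity)]
          nlinarith
        have h6 : (Fintype.card V : ℚ) / k * (harmonic j + ((j : ℚ) + 1)⁻¹ - 3 / 2) =
            (Fintype.card V : ℚ) / k * (harmonic j - 3 / 2) +
              (Fintype.card V : ℚ) / k * ((j : ℚ) + 1)⁻¹ := by ring
        rw [h6]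
        linarith

end Pool.Agent.Lib.MPb63a06.DV
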