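import Pool.Agent.Lib.MP_b63a06_co.DV.SpecB

/-!
# MP_b63a06_co: module MXF (a greatest family of disjoint independent triples)
-/

set_option autoImplicit false

namespace Pool.Agent.Lib.MPb63a06.DV

namespace MXFM

variable {V : Type} [Fintype V] [DecidableEq V]

/-- a family of disjoint independent triples -/
def Fam (G : SimpleGraph V) (F : Finset (Finset V)) : Prop :=
  (∀ s ∈ F, Tri G s) ∧ ∀ s ∈ F, ∀ t ∈ F, s ≠ t → Disjoint s t

theorem mem_rest {F : Finset (Finset V)} {v : V} : v ∈ rest F ↔ ∀ s ∈ F, v ∉ s := by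
  unfold rest
  simp only [Finset.mem_sdiff, Finset.mem_univ, true_and, Finset.mem_biUnion, id_eq, not_exists,
    not_and]

theorem rest_disj {F : Finset (Finset V)} {s t : Finset V} (hs : s ⊆ rest F) (ht : t ∈ F) :
    Disjoint s t := by
  rw [Finset.disjoint_left]
  intro v hv hvt
  exact mem_rest.mp (hs hv) t ht hvt

theorem exists_max (G : SimpleGraph V) : ∃ F, Fam G F ∧ ∀ F', Fam G F' → F'.card ≤ F.card := by
  classical
  obtain ⟨F, hF, hmax⟩ := Finset.exists_max_image
    ((Finset.univ : Finset (Finset (Finset V))).filter fun F => Fam G F) Finset.card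
    ⟨∅, by
      rw [Finset.mem_filter]
      exact ⟨Finset.mem_univ _, fun s hs => absurd hs (Finset.notMem_empty _),
        fun s hs => absurd hs (Finset.notMem_empty _)⟩⟩
  exact ⟨F, (Finset.mem_filter.mp hF).2, fun F' hF' => hmax F'
    (Finset.mem_filter.mpr ⟨Finset.mem_univ _, hF'⟩)⟩

theorem tri_nonempty {G : SimpleGraph V} {s : Finset V} (h : Tri G s) : s.Nonempty := by
  rw [← Finset.card_pos, h.1]
  norm_num

/-- adding a triple disjoint from the members -/
theorem fam_insert {G : SimpleGraph V} {F : Finset (Finset V)} (hF : Fam G F) {s : Finset V}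
    (hs : Tri G s) (hd : ∀ t ∈ F, Disjoint s t) :
    Fam G (insert s F) ∧ (insert s F).card = F.card + 1 := by
  have hns : s ∉ F := by
    intro h
    have h1 := hd s h
    rw [disjoint_self] at h1
    obtain ⟨v, hv⟩ := tri_nonempty hs
    rw [h1] at hv
    exact Finset.notMem_empty _ hv
  refine ⟨⟨?_, ?_⟩, Finset.card_insert_of_notMem hns⟩
  · intro t ht
    rcases Finset.mem_insert.mp ht with h | h
    · rw [h]; exact hs
    · exact hF.1 t h
  · intro t ht t' ht' hne
    rcases Finset.mem_insert.mp ht with h | h <;> rcases Finset.mem_insert.mp ht' with h' | h'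
    · exact absurd (h.trans h'.symm) hne
    · rw [h]; exact hd t' h'
    · rw [h']; exact (hd t h).symm
    · exact hF.2 t h t' h' hne

theorem fam_erase {G : SimpleGraph V} {F : Finset (Finset V)} (hF : Fam G F) (τ : Finset V) :
    Fam G (F.erase τ) :=
  ⟨fun s hs => hF.1 s (Finset.mem_of_mem_erase hs), fun s hs t ht =>
    hF.2 s (Finset.mem_of_mem_erase hs) t (Finset.mem_of_mem_erase ht)⟩

end MXFM

open MXFM in
theorem specMXF : SpecMXF := by
  intro V _ _ G
  obtain ⟨F, hF, hmax⟩ := exists_max G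
  refine ⟨F, ⟨hF.1, hF.2, ?_, ?_⟩⟩
  · intro s hsR hsI
    by_contra hcard
    obtain ⟨t, hts, htc⟩ := Finset.exists_subset_card_eq (show 3 ≤ s.card by omega)
    have ht : Tri G t := ⟨htc, fun a ha b hb hab => hsI (hts ha) (hts hb) hab⟩
    obtain ⟨h1, h2⟩ := fam_insert hF ht fun u hu => rest_disj (hts.trans hsR) hu
    have h3 := hmax _ h1
    omega
  · intro τ hτ s t hs ht hsR htR hd
    have hE := fam_erase hF τ
    have hdis : ∀ s : Finset V, s ⊆ rest F ∪ τ → ∀ u ∈ F.erase τ, Disjoint s u := by
      intro s hsR u hu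
      rw [Finset.disjoint_left]
      intro v hv hvu
      rcases Finset.mem_union.mp (hsR hv) with h | h
      · exact mem_rest.mp h u (Finset.mem_of_mem_erase hu) hvu
      · have h4 := hF.2 u (Finset.mem_of_mem_erase hu) τ hτ (Finset.ne_of_mem_erase hu)
        exact Finset.disjoint_left.mp h4 hvu h
    obtain ⟨h1, h2⟩ := fam_insert hE hs (hdis s hsR)
    obtain ⟨h3, h4⟩ := fam_insert h1 ht (by
      intro u hu
      rcases Finset.mem_insert.mp hu with h | h
      · rw [h]; exact hd.symm
      · exact hdis t htR u h)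
    have h5 := hmax _ h3
    rw [h4, h2, Finset.card_erase_of_mem hτ] at h5
    have h6 : 0 < F.card := Finset.card_pos.mpr ⟨τ, hτ⟩
    omega

end Pool.Agent.Lib.MPb63a06.DV
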