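import Pool.Agent.Lib.MP_b63a06_co.DV.Spec

/-!
# MP_b63a06_co, module TWA: a matching of the complement gives a colouring
-/

set_option autoImplicit false

namespace Pool.Agent.Lib.MPb63a06.DV

open Finset

theorem specTWA : SpecTWA := by
  intro V _ _ G k ⟨μ, hμ, hadj, hk⟩
  have e : V ≃ Fin (Fintype.card V) := Fintype.equivFin V
  set f : V → Fin (Fintype.card V) := fun x => min (e x) (e (μ x)) with hfdef
  have hf : ∀ x y, f x = f y → y = x ∨ y = μ x := by
    intro x y h
    have h0 : min (e x) (e (μ x)) = min (e y) (e (μ y)) := h
    rcases min_choice (e x) (e (μ x)) with h1 | h1 <;>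
      rcases min_choice (e y) (e (μ y)) with h2 | h2
    · rw [h1, h2] at h0
      exact Or.inl (e.injective h0).symm
    · rw [h1, h2] at h0
      right
      rw [e.injective h0, hμ]
    · rw [h1, h2] at h0
      exact Or.inr (e.injective h0).symm
    · rw [h1, h2] at h0
      left
      have h3 := congrArg μ (e.injective h0)
      rw [hμ, hμ] at h3
      exact h3.symm
  set I : Finset (Fin (Fintype.card V)) := univ.image f with hI
  refine ⟨I.card, ⟨fun x => ((I.equivFin ⟨f x, mem_image_of_mem f (mem_univ x)⟩ : Fin I.card) : ℕ),
    ?_, ?_⟩, ?_⟩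
  · intro x _
    exact (I.equivFin _).2
  · intro x _ y _ hxy h
    have h1 := I.equivFin.injective (Fin.ext h)
    have h3 : f x = f y := congrArg Subtype.val h1
    rcases hf x y h3 with h4 | h4
    · rw [h4] at hxy
      exact G.loopless.irrefl x hxy
    · by_cases h5 : μ x = x
      · rw [h4, h5] at hxy
        exact G.loopless.irrefl x hxy
      · have h6 := hadj x h5
        rw [← h4] at h6
        exact (SimpleGraph.compl_adj G x y).1 h6 |>.2 hxy
  · set L : Finset V := univ.filter fun x => e x < e (μ x) with hL
    set R : Finset V := univ.filter fun x => e (μ x) < e x with hR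
    set F : Finset V := univ.filter fun x => μ x = x with hF
    have h1 : L.card = R.card := by
      refine card_nbij' μ μ ?_ ?_ (fun x _ => hμ x) (fun x _ => hμ x)
      · intro x hx
        simp only [hL, hR, coe_filter, mem_univ, true_and, Set.mem_ofPred_eq] at hx ⊢
        rw [hμ]
        exact hx
      · intro x hx
        simp only [hL, hR, coe_filter, mem_univ, true_and, Set.mem_ofPred_eq] at hx ⊢
        rw [hμ]
        exact hx
    have h2 : L.card + R.card + F.card = Fintype.card V := by
      have h20 : ∑ _x : V, (1 : ℕ) = Fintype.card V := by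
        rw [← card_eq_sum_ones, card_univ]
      rw [hL, hR, hF, card_filter, card_filter, card_filter, ← sum_add_distrib,
        ← sum_add_distrib]
      refine Eq.trans (sum_congr rfl fun x _ => ?_) h20
      rcases lt_trichotomy (e x) (e (μ x)) with h3 | h3 | h3
      · have h4 : μ x ≠ x := fun h5 => by
          rw [h5] at h3
          exact lt_irrefl _ h3
        rw [if_pos h3, if_neg (not_lt.2 h3.le), if_neg h4]
      · have h4 : μ x = x := (e.injective h3).symm
        rw [if_neg (by rw [h3]; exact lt_irrefl _), if_neg (by rw [h3]; exact lt_irrefl _),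
          if_pos h4]
      · have h4 : μ x ≠ x := fun h5 => by
          rw [h5] at h3
          exact lt_irrefl _ h3
        rw [if_neg (not_lt.2 h3.le), if_pos h3, if_neg h4]
    have h3 : I ⊆ (L ∪ F).image e := by
      intro y hy
      rw [hI, mem_image] at hy
      obtain ⟨x, -, rfl⟩ := hy
      show min (e x) (e (μ x)) ∈ _
      rw [mem_image]
      rcases lt_trichotomy (e x) (e (μ x)) with h4 | h4 | h4
      · refine ⟨x, mem_union_left _ ?_, ?_⟩
        · rw [hL, mem_filter]
          exact ⟨mem_univ _, h4⟩
        · rw [min_eq_left h4.le]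
      · refine ⟨x, mem_union_right _ ?_, ?_⟩
        · rw [hF, mem_filter]
          exact ⟨mem_univ _, (e.injective h4).symm⟩
        · rw [min_eq_left h4.le]
      · refine ⟨μ x, mem_union_left _ ?_, ?_⟩
        · rw [hL, mem_filter, hμ]
          exact ⟨mem_univ _, h4⟩
        · rw [min_eq_right h4.le]
    have h4 : I.card ≤ L.card + F.card :=
      (card_le_card h3).trans (card_image_le.trans (card_union_le _ _))
    have h5 : F.card ≤ k := hk
    omega

end Pool.Agent.Lib.MPb63a06.DV
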