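import Pool.Agent.Lib.MP_b63a06_co.DV.Spec

/-!
# MP_b63a06_co, dense vertex-transitive graphs, module TWB: a barrier gives a large clique
-/

set_option autoImplicit false

namespace Pool.Agent.Lib.MPb63a06.DV

open Finset

namespace TWBM

/-- a class of the barrier contains a large clique -/
theorem exists_clique {V : Type} [Fintype V] [DecidableEq V] (G : SimpleGraph V)
    [DecidableRel G.Adj] (hAl : Al G 2 Finset.univ) (S : Finset V) (f : V → V)
    (hf : ∀ x y, x ∉ S → y ∉ S → Gᶜ.Adj x y → f x = f y) (q : V)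
    (hq : Odd (Finset.univ.filter fun x => x ∉ S ∧ f x = q).card) :
    ∃ K : Finset V, (∀ x ∈ K, x ∉ S ∧ f x = q) ∧ G.IsClique (K : Set V) ∧ 1 ≤ K.card ∧
      Fintype.card V - 1 - G.maxDegree - S.card ≤ K.card := by
  classical
  have hne : (Finset.univ.filter fun x => x ∉ S ∧ f x = q).Nonempty := by
    rw [← Finset.card_pos]
    exact hq.pos
  obtain ⟨v, hv⟩ := hne
  rw [Finset.mem_filter] at hv
  obtain ⟨-, hvS, hvq⟩ := hv
  -- the non-neighbours of `v` outside `S`
  let N : Finset V := Gᶜ.neighborFinset v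
  have hNcard : Fintype.card V - 1 - G.maxDegree ≤ N.card := by
    have h1 : N.card = Fintype.card V - 1 - G.degree v := by
      have := SimpleGraph.degree_compl G v
      rw [← this]
      exact SimpleGraph.card_neighborFinset_eq_degree _ _
    have h2 : G.degree v ≤ G.maxDegree := G.degree_le_maxDegree v
    omega
  have hNadj : ∀ x ∈ N, Gᶜ.Adj v x := by
    intro x hx
    exact (SimpleGraph.mem_neighborFinset _ _ _).1 hx
  have hD : N.card - S.card ≤ (N \ S).card := Finset.le_card_sdiff S N
  have hDq : ∀ x ∈ N \ S, x ∉ S ∧ f x = q := by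
    intro x hx
    rw [Finset.mem_sdiff] at hx
    refine ⟨hx.2, ?_⟩
    rw [← hvq]
    exact (hf v x hvS hx.2 (hNadj x hx.1)).symm
  have hDc : G.IsClique ((N \ S : Finset V) : Set V) := by
    intro x hx y hy hxy
    by_contra hadj
    rw [Finset.mem_coe, Finset.mem_sdiff] at hx hy
    have hx1 := hNadj x hx.1
    have hy1 := hNadj y hy.1
    rw [SimpleGraph.compl_adj] at hx1 hy1
    have hind : G.IsIndepSet (({v, x, y} : Finset V) : Set V) := by
      intro a ha b hb hab hG
      simp only [Finset.coe_insert, Finset.coe_singleton, Set.mem_insert_iff,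
        Set.mem_singleton_iff] at ha hb
      rcases ha with rfl | rfl | rfl <;> rcases hb with rfl | rfl | rfl
      · exact hab rfl
      · exact hx1.2 hG
      · exact hy1.2 hG
      · exact hx1.2 hG.symm
      · exact hab rfl
      · exact hadj hG
      · exact hy1.2 hG.symm
      · exact hadj hG.symm
      · exact hab rfl
    have h3 := hAl {v, x, y} (Finset.subset_univ _) hind
    have h4 : ({v, x, y} : Finset V).card = 3 := by
      rw [Finset.card_eq_three]
      exact ⟨v, x, y, hx1.1, hy1.1, hxy, rfl⟩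
    omega
  by_cases h0 : 1 ≤ (N \ S).card
  · exact ⟨N \ S, hDq, hDc, h0, by omega⟩
  · refine ⟨{v}, ?_, ?_, ?_, ?_⟩
    · intro x hx
      rw [Finset.mem_singleton] at hx
      subst hx
      exact ⟨hvS, hvq⟩
    · simp
    · simp
    · have : (({v} : Finset V)).card = 1 := Finset.card_singleton v
      omega

end TWBM

theorem specTWB : SpecTWB := by
  intro V _ _ G _ hAl k S f hf hQ
  classical
  have hK : ∀ q : V, ∃ K : Finset V,
      Odd (Finset.univ.filter fun x => x ∉ S ∧ f x = q).card →
      ((∀ x ∈ K, x ∉ S ∧ f x = q) ∧ G.IsClique (K : Set V) ∧ 1 ≤ K.card ∧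
        Fintype.card V - 1 - G.maxDegree - S.card ≤ K.card) := by
    intro q
    by_cases hq : Odd (Finset.univ.filter fun x => x ∉ S ∧ f x = q).card
    · obtain ⟨K, h⟩ := TWBM.exists_clique G hAl S f hf q hq
      exact ⟨K, fun _ => h⟩
    · exact ⟨∅, fun h => absurd h hq⟩
  choose K hK using hK
  set Q : Finset V := Finset.univ.filter fun q =>
    Odd (Finset.univ.filter fun x => x ∉ S ∧ f x = q).card with hQdef
  have hQm : ∀ q ∈ Q, Odd (Finset.univ.filter fun x => x ∉ S ∧ f x = q).card := by
    intro q hq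
    rw [hQdef, Finset.mem_filter] at hq
    exact hq.2
  have hcl : G.IsClique ((Q.biUnion K : Finset V) : Set V) := by
    intro x hx y hy hxy
    rw [Finset.mem_coe, Finset.mem_biUnion] at hx hy
    obtain ⟨p, hp, hxp⟩ := hx
    obtain ⟨q, hq, hyq⟩ := hy
    by_cases hpq : p = q
    · subst hpq
      exact (hK p (hQm p hp)).2.1 hxp hyq hxy
    · obtain ⟨hxS, hfx⟩ := (hK p (hQm p hp)).1 x hxp
      obtain ⟨hyS, hfy⟩ := (hK q (hQm q hq)).1 y hyq
      by_contra hadj
      have : Gᶜ.Adj x y := by
        rw [SimpleGraph.compl_adj]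
        exact ⟨hxy, hadj⟩
      have h := hf x y hxS hyS this
      rw [hfx, hfy] at h
      exact hpq h
  have hcard : (Q.biUnion K).card = ∑ q ∈ Q, (K q).card := by
    apply Finset.card_biUnion
    intro p hp q hq hpq
    show Disjoint (K p) (K q)
    rw [Finset.disjoint_left]
    intro x hxp hxq
    have h1 := ((hK p (hQm p hp)).1 x hxp).2
    have h2 := ((hK q (hQm q hq)).1 x hxq).2
    exact hpq (h1.symm.trans h2)
  set m : ℕ := Fintype.card V - 1 - G.maxDegree - S.card with hm
  have hlow : Q.card * max 1 m ≤ (Q.biUnion K).card := by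
    rw [hcard, ← smul_eq_mul]
    apply Finset.card_nsmul_le_sum
    intro q hq
    exact max_le (hK q (hQm q hq)).2.2.1 (hK q (hQm q hq)).2.2.2
  have hω : (Q.biUnion K).card ≤ G.cliqueNum := hcl.card_le_cliqueNum
  by_cases hm1 : 1 ≤ m
  · rw [max_eq_right hm1] at hlow
    have hQ1 : 1 ≤ Q.card := by omega
    obtain ⟨a, ha⟩ := Nat.exists_eq_add_of_le hQ1
    obtain ⟨b, hb⟩ := Nat.exists_eq_add_of_le hm1
    have hprod : Q.card + m ≤ Q.card * m + 1 := by
      rw [ha, hb]
      nlinarith [Nat.zero_le (a * b)]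
    omega
  · rw [max_eq_left (by omega)] at hlow
    omega

end Pool.Agent.Lib.MPb63a06.DV
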