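import Pool.Agent.Lib.MP_b63a06_co.DV.Spec

/-!
# MP_b63a06_co, DV, module TWO: Reed's bound for independence number at most two
-/

set_option autoImplicit false

namespace Pool.Agent.Lib.MPb63a06.DV

namespace TWOM

theorem card_le {V : Type} [Fintype V] [DecidableEq V] (G : SimpleGraph V) [DecidableRel G.Adj]
    (hA : Al G 2 Finset.univ) (hV : Nonempty V) :
    Fintype.card V ≤ G.cliqueNum + G.maxDegree + 1 := by
  obtain ⟨v, hv⟩ := G.exists_maximal_degree_vertex
  set K : Finset V := (insert v (G.neighborFinset v))ᶜ with hK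
  have hcl : G.IsClique (K : Set V) := by
    intro x hx y hy hxy
    by_contra hadj
    have hx' : x ≠ v ∧ ¬ G.Adj v x := by
      have h1 : x ∈ K := hx
      rw [hK, Finset.mem_compl, Finset.mem_insert, not_or, SimpleGraph.mem_neighborFinset] at h1
      exact h1
    have hy' : y ≠ v ∧ ¬ G.Adj v y := by
      have h1 : y ∈ K := hy
      rw [hK, Finset.mem_compl, Finset.mem_insert, not_or, SimpleGraph.mem_neighborFinset] at h1
      exact h1
    have h3 : ({v, x, y} : Finset V).card = 3 := by
      rw [Finset.card_eq_three]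
      exact ⟨v, x, y, hx'.1.symm, hy'.1.symm, hxy, rfl⟩
    have hind : G.IsIndepSet (({v, x, y} : Finset V) : Set V) := by
      intro a ha b hb hab
      simp only [Finset.coe_insert, Finset.coe_singleton, Set.mem_insert_iff,
        Set.mem_singleton_iff] at ha hb
      rcases ha with rfl | rfl | rfl <;> rcases hb with rfl | rfl | rfl
      · exact absurd rfl hab
      · exact hx'.2
      · exact hy'.2
      · exact fun h => hx'.2 h.symm
      · exact absurd rfl hab
      · exact hadj
      · exact fun h => hy'.2 h.symm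
      · exact fun h => hadj h.symm
      · exact absurd rfl hab
    have h4 := hA {v, x, y} (Finset.subset_univ _) hind
    omega
  have h1 : K.card ≤ G.cliqueNum := hcl.card_le_cliqueNum
  have h2 : (insert v (G.neighborFinset v)).card = G.degree v + 1 := by
    rw [Finset.card_insert_of_notMem (by simp), SimpleGraph.card_neighborFinset_eq_degree]
  have h3 := Finset.card_add_card_compl (insert v (G.neighborFinset v))
  rw [h2, ← hv, ← hK] at h3
  omega

end TWOM

open TWOM in
theorem specTWO (hTB : SpecTB) (hTWA : SpecTWA) (hTWB : SpecTWB) : SpecTWO := by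
  intro V _ _ G _ hA
  rcases isEmpty_or_nonempty V with hV | hV
  · exact ⟨0, ⟨fun _ => 0, fun x _ => hV.elim x, fun x _ => hV.elim x⟩, by omega⟩
  have hn := card_le G hA hV
  obtain ⟨k, hk⟩ : ∃ k, Fintype.card V + k = 2 * ((G.cliqueNum + G.maxDegree + 2) / 2) :=
    ⟨2 * ((G.cliqueNum + G.maxDegree + 2) / 2) - Fintype.card V, by omega⟩
  by_cases hμ : ∃ μ : V → V, (∀ x, μ (μ x) = x) ∧ (∀ x, μ x ≠ x → Gᶜ.Adj x (μ x)) ∧
      (Finset.univ.filter fun x => μ x = x).card ≤ k
  · obtain ⟨c, hc, hc2⟩ := hTWA V G k hμ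
    exact ⟨c, hc, by omega⟩
  · exfalso
    obtain ⟨S, f, hf, hS⟩ := hTB V Gᶜ k ⟨(G.cliqueNum + G.maxDegree + 2) / 2, by omega⟩ hμ
    have h1 := hTWB V G hA k S f hf hS
    omega

end Pool.Agent.Lib.MPb63a06.DV
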