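import Pool.Agent.Lib.MP_ded8ec_lc.SG.TBF
import Pool.Agent.Lib.MP_b63a06_co.DV.AVG
import Pool.Agent.Lib.MP_b63a06_co.DV.FIN
import Pool.Agent.Lib.MP_b63a06_co.DV.GRE
import Pool.Agent.Lib.MP_b63a06_co.DV.HRM
import Pool.Agent.Lib.MP_b63a06_co.DV.TWA
import Pool.Agent.Lib.MP_b63a06_co.DV.TWB
import Pool.Agent.Lib.MP_b63a06_co.DV.TWO

/-!
# MP_b63a06_co: assembly of the modules of `DV`
-/

set_option autoImplicit false

namespace Pool.Agent.Lib.MPb63a06.DV

theorem allTB : SpecTB := Pool.Agent.Lib.MPded8ec.SG.specTBF.{0}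

theorem allTWO : SpecTWO := specTWO allTB specTWA specTWB

theorem allHRM : SpecHRM := specHRM specGRE

theorem allFIN : SpecFIN := specFIN specAVG allHRM allTWO

end Pool.Agent.Lib.MPb63a06.DV
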