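import Pool.Agent.Lib.MP_b63a06_co.DV.SpecB

/-!
# Module XIN: the exchange lemma
-/

set_option autoImplicit false

namespace Pool.Agent.Lib.MPb63a06.DV

namespace XINM

lemma bool_aux : ∀ p1 p2 p3 u1 u2 u3 : Bool, (p1 = p2 ↔ u1 ≠ u2) → (p1 = p3 ↔ u1 ≠ u3) →
    (p2 = p3 ↔ u2 ≠ u3) → False := by decide

lemma prop_aux (p1 p2 p3 u1 u2 u3 : Prop) (h12 : (p1 ↔ p2) ↔ ¬ (u1 ↔ u2))
    (h13 : (p1 ↔ p3) ↔ ¬ (u1 ↔ u3)) (h23 : (p2 ↔ p3) ↔ ¬ (u2 ↔ u3)) : False := by
  classical
  refine bool_aux (decide p1) (decide p2) (decide p3) (decide u1) (decide u2) (decide u3)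
    ?_ ?_ ?_ <;> simp only [ne_eq, decide_eq_decide] <;> assumption

lemma xor_iff {p q : Prop} (h : (p ∧ ¬ q) ∨ (¬ p ∧ q)) : q ↔ ¬ p := by
  tauto

variable {V : Type} [Fintype V] [DecidableEq V] {G : SimpleGraph V} {R τ : Finset V}

/-- The triples in question. -/
def IsL (G : SimpleGraph V) (R τ : Finset V) (s : Finset V) : Prop :=
  Tri G s ∧ s ⊆ R ∪ τ ∧ (s ∩ τ).card = 1

lemma mem_trip {s : Finset V} : s ∈ trip G ↔ Tri G s := by
  simp [trip]

lemma nadj {s : Finset V} (h : G.IsIndepSet (s : Set V)) {u v : V} (hu : u ∈ s) (hv : v ∈ s) :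
    ¬ G.Adj u v := by
  intro hadj
  exact h (Finset.mem_coe.2 hu) (Finset.mem_coe.2 hv) hadj.ne hadj

lemma no_three (hR : Al G 2 R) {u v w : V} (hu : u ∈ R) (hv : v ∈ R) (hw : w ∈ R) (h1 : u ≠ v)
    (h2 : u ≠ w) (h3 : v ≠ w) (n1 : ¬ G.Adj u v) (n2 : ¬ G.Adj u w) (n3 : ¬ G.Adj v w) :
    False := by
  have h := hR {u, v, w} (by
    intro q hq
    simp only [Finset.mem_insert, Finset.mem_singleton] at hq
    rcases hq with rfl | rfl | rfl <;> assumption) (by
    intro p hp q hq hpq hadj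
    simp only [Finset.coe_insert, Finset.coe_singleton, Set.mem_insert_iff,
      Set.mem_singleton_iff] at hp hq
    rcases hp with rfl | rfl | rfl <;> rcases hq with rfl | rfl | rfl
    all_goals first
      | exact hpq rfl
      | exact n1 hadj
      | exact n2 hadj
      | exact n3 hadj
      | exact n1 hadj.symm
      | exact n2 hadj.symm
      | exact n3 hadj.symm)
  rw [Finset.card_eq_three.2 ⟨u, v, w, h1, h2, h3, rfl⟩] at h
  omega

lemma shape {s : Finset V} (h : IsL G R τ s) :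
    ∃ x a b, x ∈ τ ∧ a ∈ R ∧ b ∈ R ∧ a ∉ τ ∧ b ∉ τ ∧ a ≠ b ∧ s = {x, a, b} := by
  obtain ⟨⟨hc, hi⟩, hsub, h1⟩ := h
  obtain ⟨x, hx⟩ := Finset.card_eq_one.1 h1
  have h2 : (s \ τ).card = 2 := by
    have := Finset.card_sdiff_add_card_inter s τ
    omega
  obtain ⟨a, b, hab, he⟩ := Finset.card_eq_two.1 h2
  have hxs : x ∈ s ∩ τ := by rw [hx]; simp
  have has : a ∈ s \ τ := by rw [he]; simp
  have hbs : b ∈ s \ τ := by rw [he]; simp
  rw [Finset.mem_inter] at hxs
  rw [Finset.mem_sdiff] at has hbs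
  have haR : a ∈ R := by
    rcases Finset.mem_union.1 (hsub has.1) with h | h
    · exact h
    · exact absurd h has.2
  have hbR : b ∈ R := by
    rcases Finset.mem_union.1 (hsub hbs.1) with h | h
    · exact h
    · exact absurd h hbs.2
  refine ⟨x, a, b, hxs.2, haR, hbR, has.2, hbs.2, hab, ?_⟩
  ext q
  constructor
  · intro hq
    by_cases hqτ : q ∈ τ
    · have : q ∈ s ∩ τ := Finset.mem_inter.2 ⟨hq, hqτ⟩
      rw [hx, Finset.mem_singleton] at this
      simp [this]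
    · have : q ∈ s \ τ := Finset.mem_sdiff.2 ⟨hq, hqτ⟩
      rw [he] at this
      simp only [Finset.mem_insert, Finset.mem_singleton] at this ⊢
      exact Or.inr this
  · intro hq
    simp only [Finset.mem_insert, Finset.mem_singleton] at hq
    rcases hq with rfl | rfl | rfl
    · exact hxs.1
    · exact has.1
    · exact hbs.1

/-- The membership pattern of the triples off `x`. -/
lemma pattern (hd : Disjoint τ R)
    (hex : ∀ s t, Tri G s → Tri G t → s ⊆ R ∪ τ → t ⊆ R ∪ τ → ¬ Disjoint s t)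
    {x y z a b c d : V} (hyz : y ≠ z) (hτ' : ∀ q, q ∈ τ ↔ q = x ∨ q = y ∨ q = z)
    (ha : a ∈ R) (hb : b ∈ R) (hc : c ∈ R) (hd' : d ∈ R)
    (hab : a ≠ b) (hcd : c ≠ d) (hac : a ≠ c) (had : a ≠ d) (hbc : b ≠ c) (hbd : b ≠ d)
    (hs : IsL G R τ {x, a, b}) (ht : IsL G R τ {x, c, d}) {t : Finset V} (hLt : IsL G R τ t)
    (hxt : x ∉ t) :
    ((y ∈ t ∧ z ∉ t) ∨ (y ∉ t ∧ z ∈ t)) ∧ ((a ∈ t ∧ b ∉ t) ∨ (a ∉ t ∧ b ∈ t)) ∧
      ((c ∈ t ∧ d ∉ t) ∨ (c ∉ t ∧ d ∈ t)) ∧
      ∀ q ∈ t, q = y ∨ q = z ∨ q = a ∨ q = b ∨ q = c ∨ q = d := by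
  obtain ⟨p, u, v, hp, hu, hv, hup, hvp, huv, hte⟩ := shape hLt
  have hmem : ∀ q, q ∈ t ↔ q = p ∨ q = u ∨ q = v := by
    intro q; rw [hte]; simp
  have m1 : a ∈ t ∨ b ∈ t := by
    obtain ⟨q, hq1, hq2⟩ := Finset.not_disjoint_iff.1 (hex _ _ hs.1 hLt.1 hs.2.1 hLt.2.1)
    simp only [Finset.mem_insert, Finset.mem_singleton] at hq1
    rcases hq1 with rfl | rfl | rfl
    · exact absurd hq2 hxt
    · exact Or.inl hq2
    · exact Or.inr hq2
  have m2 : c ∈ t ∨ d ∈ t := by
    obtain ⟨q, hq1, hq2⟩ := Finset.not_disjoint_iff.1 (hex _ _ ht.1 hLt.1 ht.2.1 hLt.2.1)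
    simp only [Finset.mem_insert, Finset.mem_singleton] at hq1
    rcases hq1 with rfl | rfl | rfl
    · exact absurd hq2 hxt
    · exact Or.inl hq2
    · exact Or.inr hq2
  have hRt : ∀ q ∈ R, q ∈ t → q = u ∨ q = v := by
    intro q hq hqt
    rcases (hmem q).1 hqt with h | h
    · rw [h] at hq
      exact absurd hq (Finset.disjoint_left.1 hd hp)
    · exact h
  have hτt : ∀ q ∈ τ, q ∈ t → q = p := by
    intro q hq hqt
    rcases (hmem q).1 hqt with h | h | h
    · exact h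
    · rw [h] at hq; exact absurd hq hup
    · rw [h] at hq; exact absurd hq hvp
  have pig : ∀ q1 q2 q3, q1 ∈ R → q2 ∈ R → q3 ∈ R → q1 ≠ q2 → q1 ≠ q3 → q2 ≠ q3 →
      q1 ∈ t → q2 ∈ t → q3 ∈ t → False := by
    intro q1 q2 q3 r1 r2 r3 n12 n13 n23 i1 i2 i3
    rcases hRt q1 r1 i1 with e1 | e1 <;> rcases hRt q2 r2 i2 with e2 | e2 <;>
      rcases hRt q3 r3 i3 with e3 | e3 <;>
      first
        | exact n12 (e1.trans e2.symm)
        | exact n13 (e1.trans e3.symm)
        | exact n23 (e2.trans e3.symm)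
  have hp' : p = y ∨ p = z := by
    rcases (hτ' p).1 hp with h4 | h4
    · exfalso
      apply hxt
      rw [hmem]
      exact Or.inl h4.symm
    · exact h4
  have hpt : p ∈ t := (hmem p).2 (Or.inl rfl)
  have hyτ : y ∈ τ := (hτ' y).2 (Or.inr (Or.inl rfl))
  have hzτ : z ∈ τ := (hτ' z).2 (Or.inr (Or.inr rfl))
  refine ⟨?_, ?_, ?_, ?_⟩
  · rcases hp' with h | h
    · left
      refine ⟨by rw [← h]; exact hpt, ?_⟩
      intro hz
      exact hyz ((hτt z hzτ hz).trans h).symm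
    · right
      refine ⟨?_, by rw [← h]; exact hpt⟩
      intro hy
      exact hyz ((hτt y hyτ hy).trans h)
  · rcases m1 with m | m
    · left
      refine ⟨m, fun hbt => ?_⟩
      rcases m2 with n | n
      · exact pig a b c ha hb hc hab hac hbc m hbt n
      · exact pig a b d ha hb hd' hab had hbd m hbt n
    · right
      refine ⟨fun hat => ?_, m⟩
      rcases m2 with n | n
      · exact pig a b c ha hb hc hab hac hbc hat m n
      · exact pig a b d ha hb hd' hab had hbd hat m n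
  · rcases m2 with m | m
    · left
      refine ⟨m, fun hdt => ?_⟩
      rcases m1 with n | n
      · exact pig a c d ha hc hd' hac had hcd n m hdt
      · exact pig b c d hb hc hd' hbc hbd hcd n m hdt
    · right
      refine ⟨fun hct => ?_, m⟩
      rcases m1 with n | n
      · exact pig a c d ha hc hd' hac had hcd n hct m
      · exact pig b c d hb hc hd' hbc hbd hcd n hct m
  · intro q hq
    by_contra hcon
    push Not at hcon
    obtain ⟨qy, qz, qa, qb, qc, qd⟩ := hcon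
    have hqR : q ∈ R := by
      rcases (hmem q).1 hq with h | h | h
      · rcases hp' with h' | h'
        · exact absurd (h.trans h') qy
        · exact absurd (h.trans h') qz
      · rw [h]; exact hu
      · rw [h]; exact hv
    rcases m1 with m | m <;> rcases m2 with n | n
    · exact pig q a c hqR ha hc qa qc hac hq m n
    · exact pig q a d hqR ha hd' qa qd had hq m n
    · exact pig q b c hqR hb hc qb qc hbc hq m n
    · exact pig q b d hqR hb hd' qb qd hbd hq m n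

/-- Two different triples off `x`. -/
lemma pair (hR : Al G 2 R) (hd : Disjoint τ R)
    (hex : ∀ s t, Tri G s → Tri G t → s ⊆ R ∪ τ → t ⊆ R ∪ τ → ¬ Disjoint s t)
    {x y z a b c d : V} (hyz : y ≠ z) (hτ' : ∀ q, q ∈ τ ↔ q = x ∨ q = y ∨ q = z)
    (ha : a ∈ R) (hb : b ∈ R) (hc : c ∈ R) (hd' : d ∈ R)
    (hab : a ≠ b) (hcd : c ≠ d) (hac : a ≠ c) (had : a ≠ d) (hbc : b ≠ c) (hbd : b ≠ d)
    (hs : IsL G R τ {x, a, b}) (ht : IsL G R τ {x, c, d}) {t t' : Finset V}
    (hLt : IsL G R τ t) (hxt : x ∉ t) (hLt' : IsL G R τ t') (hxt' : x ∉ t') (hne : t ≠ t') :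
    (y ∈ t ↔ y ∈ t') ↔ ¬ (a ∈ t ↔ a ∈ t') := by
  obtain ⟨k1, k2, k3, k4⟩ := pattern hd hex hyz hτ' ha hb hc hd' hab hcd hac had hbc hbd hs ht
    hLt hxt
  obtain ⟨l1, l2, l3, l4⟩ := pattern hd hex hyz hτ' ha hb hc hd' hab hcd hac had hbc hbd hs ht
    hLt' hxt'
  have nab : ¬ G.Adj a b := nadj hs.1.2 (by simp) (by simp)
  have ncd : ¬ G.Adj c d := nadj ht.1.2 (by simp) (by simp)
  have nocd : ∀ u ∈ R, u ≠ c → u ≠ d → ∀ t t', IsL G R τ t → IsL G R τ t' → u ∈ t → c ∈ t →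
      u ∈ t' → d ∈ t' → False := by
    intro u hu huc hud t t' h h' m1 m2 m3 m4
    exact no_three hR hu hc hd' huc hud hcd (nadj h.1.2 m1 m2) (nadj h'.1.2 m3 m4) ncd
  have noab : ∀ v ∈ R, v ≠ a → v ≠ b → ∀ t t', IsL G R τ t → IsL G R τ t' → v ∈ t → a ∈ t →
      v ∈ t' → b ∈ t' → False := by
    intro v hv hva hvb t t' h h' m1 m2 m3 m4
    exact no_three hR hv ha hb hva hvb hab (nadj h.1.2 m1 m2) (nadj h'.1.2 m3 m4) nab
  have e1 := nocd a ha hac had t t' hLt hLt'
  have e2 := nocd a ha hac had t' t hLt' hLt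
  have e3 := nocd b hb hbc hbd t t' hLt hLt'
  have e4 := nocd b hb hbc hbd t' t hLt' hLt
  have f1 := noab c hc hac.symm hbc.symm t t' hLt hLt'
  have f2 := noab c hc hac.symm hbc.symm t' t hLt' hLt
  have f3 := noab d hd' had.symm hbd.symm t t' hLt hLt'
  have f4 := noab d hd' had.symm hbd.symm t' t hLt' hLt
  have kz : z ∈ t ↔ y ∉ t := xor_iff k1
  have kb : b ∈ t ↔ a ∉ t := xor_iff k2
  have kd : d ∈ t ↔ c ∉ t := xor_iff k3
  have lz : z ∈ t' ↔ y ∉ t' := xor_iff l1
  have lb : b ∈ t' ↔ a ∉ t' := xor_iff l2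
  have ld : d ∈ t' ↔ c ∉ t' := xor_iff l3
  clear k1 k2 k3 l1 l2 l3
  have iff1 : (a ∈ t ↔ a ∈ t') → (c ∈ t ↔ c ∈ t') := by
    intro h
    constructor
    · intro hct
      by_contra hct'
      have hdt' := ld.2 hct'
      by_cases hat : a ∈ t
      · exact e1 hat hct (h.1 hat) hdt'
      · exact e3 (kb.2 hat) hct (lb.2 fun h' => hat (h.2 h')) hdt'
    · intro hct'
      by_contra hct
      have hdt := kd.2 hct
      by_cases hat : a ∈ t
      · exact e2 (h.1 hat) hct' hat hdt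
      · exact e4 (lb.2 fun h' => hat (h.2 h')) hct' (kb.2 hat) hdt
  have iff2 : (c ∈ t ↔ c ∈ t') → (a ∈ t ↔ a ∈ t') := by
    intro h
    constructor
    · intro hat
      by_contra hat'
      have hbt' := lb.2 hat'
      by_cases hct : c ∈ t
      · exact f1 hct hat (h.1 hct) hbt'
      · exact f3 (kd.2 hct) hat (ld.2 fun h' => hct (h.2 h')) hbt'
    · intro hat'
      by_contra hat
      have hbt := kb.2 hat
      by_cases hct : c ∈ t
      · exact f2 (h.1 hct) hat' hct hbt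
      · exact f4 (ld.2 fun h' => hct (h.2 h')) hat' (kd.2 hct) hbt
  clear e1 e2 e3 e4 f1 f2 f3 f4 nocd noab
  constructor
  · intro hy h
    apply hne
    have hcc := iff1 h
    have hz : z ∈ t ↔ z ∈ t' := kz.trans ((not_congr hy).trans lz.symm)
    have hbb : b ∈ t ↔ b ∈ t' := kb.trans ((not_congr h).trans lb.symm)
    have hdd : d ∈ t ↔ d ∈ t' := kd.trans ((not_congr hcc).trans ld.symm)
    ext q
    constructor
    · intro hq
      rcases k4 q hq with e | e | e | e | e | e <;> rw [e] at hq ⊢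
      · exact hy.1 hq
      · exact hz.1 hq
      · exact h.1 hq
      · exact hbb.1 hq
      · exact hcc.1 hq
      · exact hdd.1 hq
    · intro hq
      rcases l4 q hq with e | e | e | e | e | e <;> rw [e] at hq ⊢
      · exact hy.2 hq
      · exact hz.2 hq
      · exact h.2 hq
      · exact hbb.2 hq
      · exact hcc.2 hq
      · exact hdd.2 hq
  · intro hna
    by_contra hny
    have hnc : ¬ (c ∈ t ↔ c ∈ t') := fun h => hna (iff2 h)
    obtain ⟨q, hq, hq'⟩ := Finset.not_disjoint_iff.1 (hex _ _ hLt.1 hLt'.1 hLt.2.1 hLt'.2.1)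
    rcases k4 q hq with e | e | e | e | e | e <;> rw [e] at hq hq'
    · exact hny (iff_of_true hq hq')
    · exact hny (iff_of_false (kz.1 hq) (lz.1 hq'))
    · exact hna (iff_of_true hq hq')
    · exact hna (iff_of_false (kb.1 hq) (lb.1 hq'))
    · exact hnc (iff_of_true hq hq')
    · exact hnc (iff_of_false (kd.1 hq) (ld.1 hq'))

/-- There are at most two triples off `x`. -/
lemma caseA (hR : Al G 2 R) (hτ : Tri G τ) (hd : Disjoint τ R)
    (hex : ∀ s t, Tri G s → Tri G t → s ⊆ R ∪ τ → t ⊆ R ∪ τ → ¬ Disjoint s t)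
    {x a b c d : V} (hx : x ∈ τ) (ha : a ∈ R) (hb : b ∈ R) (hc : c ∈ R) (hd' : d ∈ R)
    (hab : a ≠ b) (hcd : c ≠ d) (hac : a ≠ c) (had : a ≠ d) (hbc : b ≠ c) (hbd : b ≠ d)
    (hs : IsL G R τ {x, a, b}) (ht : IsL G R τ {x, c, d}) (L' : Finset (Finset V))
    (hL' : ∀ t ∈ L', IsL G R τ t ∧ x ∉ t) : L'.card ≤ 2 := by
  by_contra hcon
  push Not at hcon
  obtain ⟨t1, h1, t2, h2, t3, h3, h12, h13, h23⟩ := Finset.two_lt_card.1 hcon
  have hc2 : (τ.erase x).card = 2 := by rw [Finset.card_erase_of_mem hx, hτ.1]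
  obtain ⟨y, z, hyz, hyzE⟩ := Finset.card_eq_two.1 hc2
  have hτ' : ∀ q, q ∈ τ ↔ q = x ∨ q = y ∨ q = z := by
    intro q
    have h5 : q ∈ τ.erase x ↔ q = y ∨ q = z := by rw [hyzE]; simp
    rw [Finset.mem_erase] at h5
    constructor
    · intro hq
      by_cases hqx : q = x
      · exact Or.inl hqx
      · exact Or.inr (h5.1 ⟨hqx, hq⟩)
    · rintro (rfl | hq)
      · exact hx
      · exact (h5.2 hq).2
  have P := fun (t t' : Finset V) (hLt : t ∈ L') (hLt' : t' ∈ L') (hne : t ≠ t') =>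
    pair hR hd hex hyz hτ' ha hb hc hd' hab hcd hac had hbc hbd hs ht (hL' t hLt).1 (hL' t hLt).2
      (hL' t' hLt').1 (hL' t' hLt').2 hne
  exact prop_aux _ _ _ _ _ _ (P t1 t2 h1 h2 h12) (P t1 t3 h1 h3 h13) (P t2 t3 h2 h3 h23)

end XINM

open XINM in
theorem specXIN : SpecXIN := by
  intro V _ _ G R τ r hR hτ hd hex hdeg
  set L := (trip G).filter fun s => s ⊆ R ∪ τ ∧ (s ∩ τ).card = 1 with hL
  have hLmem : ∀ s, s ∈ L ↔ IsL G R τ s := by
    intro s
    rw [hL, Finset.mem_filter, mem_trip]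
    rfl
  have common : ∀ q, (∀ s ∈ L, q ∈ s) → L.card ≤ r := by
    intro q hq
    have h1 := hdeg q
    unfold deg3 at h1
    refine le_trans (Finset.card_le_card ?_) h1
    intro s hs
    simp only [Finset.mem_filter]
    exact ⟨(Finset.mem_filter.1 hs).1, hq s hs⟩
  by_cases hB : ∀ s ∈ L, ∀ t ∈ L, ∃ q ∈ R, q ∈ s ∧ q ∈ t
  · refine le_trans ?_ (Nat.le_succ r)
    by_cases hne : L.Nonempty
    swap
    · rw [Finset.not_nonempty_iff_eq_empty] at hne
      rw [hne]; simp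
    obtain ⟨s1, hs1⟩ := hne
    obtain ⟨x, a, b, hx, ha, hb, haτ, hbτ, hab, hs1e⟩ := shape ((hLmem s1).1 hs1)
    by_cases hA1 : ∀ s ∈ L, a ∈ s
    · exact common a hA1
    by_cases hB1 : ∀ s ∈ L, b ∈ s
    · exact common b hB1
    exfalso
    push Not at hA1 hB1
    obtain ⟨s2, hs2, ha2⟩ := hA1
    obtain ⟨s3, hs3, hb3⟩ := hB1
    have hs1R : ∀ q ∈ R, q ∈ s1 → q = a ∨ q = b := by
      intro q hq hqs
      rw [hs1e] at hqs
      simp only [Finset.mem_insert, Finset.mem_singleton] at hqs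
      rcases hqs with rfl | h | h
      · exact absurd hq (Finset.disjoint_left.1 hd hx)
      · exact Or.inl h
      · exact Or.inr h
    have hb2 : b ∈ s2 := by
      obtain ⟨q, hqR, hq1, hq2⟩ := hB s1 hs1 s2 hs2
      rcases hs1R q hqR hq1 with h | h
      · rw [h] at hq2; exact absurd hq2 ha2
      · rw [← h]; exact hq2
    have ha3 : a ∈ s3 := by
      obtain ⟨q, hqR, hq1, hq3⟩ := hB s1 hs1 s3 hs3
      rcases hs1R q hqR hq1 with h | h
      · rw [← h]; exact hq3
      · rw [h] at hq3; exact absurd hq3 hb3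
    obtain ⟨c, hcR, hc2, hc3⟩ := hB s2 hs2 s3 hs3
    have hca : c ≠ a := by rintro rfl; exact ha2 hc2
    have hcb : c ≠ b := by rintro rfl; exact hb3 hc3
    have n1 : ¬ G.Adj a b := nadj ((hLmem s1).1 hs1).1.2 (by rw [hs1e]; simp)
      (by rw [hs1e]; simp)
    have n2 : ¬ G.Adj a c := nadj ((hLmem s3).1 hs3).1.2 ha3 hc3
    have n3 : ¬ G.Adj b c := nadj ((hLmem s2).1 hs2).1.2 hb2 hc2
    exact no_three hR ha hb hcR hab hca.symm hcb.symm n1 n2 n3
  · push Not at hB
    obtain ⟨s, hs, t, ht, hst⟩ := hB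
    have hsL := (hLmem s).1 hs
    have htL := (hLmem t).1 ht
    obtain ⟨x, a, b, hx, ha, hb, haτ, hbτ, hab, hse⟩ := shape hsL
    obtain ⟨x', c, d, hx', hc, hd', hcτ, hdτ, hcd, hte⟩ := shape htL
    have hxx : x = x' := by
      obtain ⟨q, hq1, hq2⟩ := Finset.not_disjoint_iff.1
        (hex s t hsL.1 htL.1 hsL.2.1 htL.2.1)
      have hqR : q ∉ R := fun h => hst q h hq1 hq2
      rw [hse] at hq1
      rw [hte] at hq2
      simp only [Finset.mem_insert, Finset.mem_singleton] at hq1 hq2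
      rcases hq1 with h | h | h
      · rcases hq2 with h' | h' | h'
        · exact h.symm.trans h'
        · rw [h'] at hqR; exact absurd hc hqR
        · rw [h'] at hqR; exact absurd hd' hqR
      · rw [h] at hqR; exact absurd ha hqR
      · rw [h] at hqR; exact absurd hb hqR
    subst hxx
    have ias : a ∈ s := by rw [hse]; simp
    have ibs : b ∈ s := by rw [hse]; simp
    have ict : c ∈ t := by rw [hte]; simp
    have idt : d ∈ t := by rw [hte]; simp
    have hac : a ≠ c := by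
      rintro rfl
      exact hst _ ha ias ict
    have had : a ≠ d := by
      rintro rfl
      exact hst _ ha ias idt
    have hbc : b ≠ c := by
      rintro rfl
      exact hst _ hb ibs ict
    have hbd : b ≠ d := by
      rintro rfl
      exact hst _ hb ibs idt
    have hcard : (L.filter fun u => x ∈ u).card + (L.filter fun u => ¬ x ∈ u).card = L.card :=
      Finset.card_filter_add_card_filter_not _
    have h1 : (L.filter fun u => x ∈ u).card + 1 ≤ r := by
      have h2 := hdeg x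
      unfold deg3 at h2
      have h3 : τ ∉ L.filter fun u => x ∈ u := by
        intro h4
        have h5 := ((hLmem τ).1 (Finset.mem_filter.1 h4).1).2.2
        rw [Finset.inter_self, hτ.1] at h5
        omega
      rw [← Finset.card_insert_of_notMem h3]
      refine le_trans (Finset.card_le_card ?_) h2
      intro u hu
      simp only [Finset.mem_filter]
      rcases Finset.mem_insert.1 hu with rfl | hu
      · exact ⟨mem_trip.2 hτ, hx⟩
      · have h4 := Finset.mem_filter.1 hu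
        exact ⟨(Finset.mem_filter.1 h4.1).1, h4.2⟩
    have h2 : (L.filter fun u => ¬ x ∈ u).card ≤ 2 := by
      refine caseA hR hτ hd hex hx ha hb hc hd' hab hcd hac had hbc hbd (hse ▸ hsL) (hte ▸ htL)
        _ ?_
      intro u hu
      have h4 := Finset.mem_filter.1 hu
      exact ⟨(hLmem u).1 h4.1, h4.2⟩
    omega

end Pool.Agent.Lib.MPb63a06.DV
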