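import Pool.Agent.Lib.MP_b63a06_co.DV.Main
import Pool.Agent.Lib.MP_b63a06_co.DV.COL
import Pool.Agent.Lib.MP_b63a06_co.DV.CTG
import Pool.Agent.Lib.MP_b63a06_co.DV.DEG
import Pool.Agent.Lib.MP_b63a06_co.DV.FIB
import Pool.Agent.Lib.MP_b63a06_co.DV.MXF
import Pool.Agent.Lib.MP_b63a06_co.DV.XIN

/-!
# MP_b63a06_co: assembly of the second part of `DV`
-/

set_option autoImplicit false

namespace Pool.Agent.Lib.MPb63a06.DV

theorem allFIB : SpecFIB :=
  specFIB allFIN allTWO specMXF specDEG (specCTG specXIN) (specCOL specGRE)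

end Pool.Agent.Lib.MPb63a06.DV
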