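import Mathlib

/-!
# MP_b63a06_co: Reed's bound for dense vertex-transitive graphs.  Specification (captain helper37)

THEOREM (hand-in `DenseGraphs`).  Let `G` be a vertex-transitive graph with `n` vertices, independence
number `α`, clique number `ω`, maximum degree `Δ`, and `H_α = 1 + 1/2 + ... + 1/α`.
(1) `2 χ ≤ ω + (2 H_α - 1) n / α`.
(2) Reed's bound `χ ≤ (ω + Δ + 1) / 2` (floor) holds if `(2 H_α - 1) n ≤ α (Δ + 1)`.
(3) Reed's bound `χ ≤ ⌈(ω + Δ + 1) / 2⌉` holds if `8 n ≤ 9 (Δ + 1)`.

IDEA.  Remove disjoint independent sets of `α` vertices as long as possible, then of `α - 1` vertices,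
and so on down to pairs; the rest is a clique.  If a set `R` of vertices contains no independent set
of more than `j` vertices then `α |R| ≤ j n` (`AVG`: average `|g I ∩ R|` over the automorphisms `g`, `I` a
maximum independent set).  Counting the colours gives (1), hence (2); `(2 H_α - 1) / α ≤ 8/9` for
`α ≥ 3`, and for `α ≤ 2` the bound holds for all graphs by the Tutte-Berge formula for the
complement (`TWA`, `TWB`, `TWO`).

Module `XXX` is the file `DV/XXX.lean` with `import Pool.Agent.Lib.MP_b63a06_co.DV.Spec` only,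
namespace `Pool.Agent.Lib.MPb63a06.DV`, `theorem specXXX (hYYY : SpecYYY) ... : SpecXXX` (the
modules named after USES, in this order), own lemmas in a namespace `XXXM`.  All modules are
independent.  No double-quote characters.
-/

set_option autoImplicit false

namespace Pool.Agent.Lib.MPb63a06.DV

/-- every independent subset of `R` has at most `j` elements -/
def Al {V : Type} (G : SimpleGraph V) (j : ℕ) (R : Finset V) : Prop :=
  ∀ s : Finset V, s ⊆ R → G.IsIndepSet (s : Set V) → s.card ≤ j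

/-- the vertices of `R` can be coloured with `c` colours -/
def Clr {V : Type} (G : SimpleGraph V) (R : Finset V) (c : ℕ) : Prop :=
  ∃ f : V → ℕ, (∀ x ∈ R, f x < c) ∧ ∀ x ∈ R, ∀ y ∈ R, G.Adj x y → f x ≠ f y

/-- MODULE AVG (100 lines).  Averaging over the automorphisms.
PROOF.  `A = (G ≃g G)` is finite.  For `x y : V` let `N x y` be the number of the `g : A` with `g x = y`.
`N x y = N x y'` (if `h y = y'` then `g ↦ g.trans h` is a bijection) and `∑ y, N x y = |A|`, so
`n * N x y = |A|`, `n = |V|`.  Double counting: `∑ g, |g I ∩ R| = ∑ x ∈ I, ∑ y ∈ R, N x y`, and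
`|g I ∩ R| ≤ j` since `g I ∩ R` is independent.  So `|I| |R| |A| ≤ n j |A|`, and `|A| > 0`. -/
def SpecAVG : Prop :=
  ∀ (V : Type) [Fintype V] [DecidableEq V] (G : SimpleGraph V),
    (∀ u v : V, ∃ φ : G ≃g G, φ u = v) → ∀ (I R : Finset V) (j : ℕ),
      G.IsIndepSet (I : Set V) → Al G j R → I.card * R.card ≤ j * Fintype.card V

/-- MODULE GRE (70 lines).  Pairs and a clique.
PROOF.  Strong induction on `|R|`.  If `R` contains `x ≠ y`, not adjacent, colour `R \ {x, y}` with `c`
colours and `x`, `y` with the new colour `c`.  If not, `R` is a clique, `|R| ≤ ω`, use `|R|` colours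
(an injection of `R` into `{0, .., |R| - 1}`). -/
def SpecGRE : Prop :=
  ∀ (V : Type) [Fintype V] [DecidableEq V] (G : SimpleGraph V) (R : Finset V),
    ∃ c : ℕ, Clr G R c ∧ 2 * c ≤ G.cliqueNum + R.card

/-- MODULE HRM (120 lines).  USES GRE.  The greedy colouring, `n / k` a parameter.
PROOF.  Induction on `j`.  `j = 2`: GRE (`harmonic 2 = 3/2`).  From `j` to `j + 1`: strong induction on
`|R|`.  If `R` contains an independent set `s` with `j + 1` elements: colour `R \ s` (`Al` is inherited) and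
give the new colour `c` to `s`: `1 + (|R| - (j+1)) / (j+1) = |R| / (j+1)`.  If not then `Al G j R`
(an independent subset with at least `j + 1` elements contains one with exactly `j + 1`), so
`k |R| ≤ j n` and the induction hypothesis for `j` gives the claim since
`|R| / j = |R| / (j+1) + |R| / (j (j+1)) ≤ |R| / (j+1) + (n / k) / (j+1)` and
`harmonic (j+1) = harmonic j + 1 / (j+1)`. -/
def SpecHRM : Prop :=
  ∀ (V : Type) [Fintype V] [DecidableEq V] (G : SimpleGraph V) (k : ℕ), 0 < k →
    (∀ (R : Finset V) (j : ℕ), Al G j R → k * R.card ≤ j * Fintype.card V) →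
    ∀ j : ℕ, 2 ≤ j → ∀ R : Finset V, Al G j R → ∃ c : ℕ, Clr G R c ∧
      (c : ℚ) ≤ (R.card : ℚ) / j + (Fintype.card V : ℚ) / k * (harmonic j - 3 / 2) +
        (G.cliqueNum : ℚ) / 2

/-- MODULE TWA (90 lines).  A matching of the complement gives a colouring.
PROOF.  Let `e : V ≃ Fin n` and `f x = min (e x) (e (μ x))`.  `f x = f y` implies `y = x` or `y = μ x`, so `f` is
proper.  Let `b` be the number of the `x` with `e x < e (μ x)`; by `μ` it is the number of the `x` with
`e (μ x) < e x`, so `n = 2 b + m`, `m` = the number of fixed points.  `f` takes at most `b + m` values (the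
values `e x` with `e x ≤ e (μ x)`).  Number the values (`Finset.equivFin`). -/
def SpecTWA : Prop :=
  ∀ (V : Type) [Fintype V] [DecidableEq V] (G : SimpleGraph V) (k : ℕ),
    (∃ μ : V → V, (∀ x, μ (μ x) = x) ∧ (∀ x, μ x ≠ x → Gᶜ.Adj x (μ x)) ∧
      (Finset.univ.filter fun x => μ x = x).card ≤ k) →
    ∃ c : ℕ, Clr G Finset.univ c ∧ 2 * c ≤ Fintype.card V + k

/-- MODULE TWB (170 lines).  A barrier gives a large clique.
PROOF.  Let `n = |V|`, `δ = n - 1 - Δ`; every vertex `v` has at least `δ` non-neighbours `≠ v`.  Let `Q` be the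
set of the `q` with an odd class `C_q = {x | x ∉ S, f x = q}`, `|Q| ≥ |S| + k + 2`.  The non-neighbours `x ≠ v`
of `v ∈ C_q` are in `S ∪ C_q`, so at least `δ - |S|` of them are in `C_q`, and they form a clique of `G`
(two non-adjacent ones would give with `v` an independent set of three vertices).  So every `C_q`,
`q ∈ Q`, contains a clique `K_q` with `max (1, δ - |S|)` vertices; vertices of different classes are
adjacent in `G`, so the union of the `K_q` is a clique: `ω ≥ |Q| max (1, δ - |S|)`.  If `δ ≤ |S|` then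
`ω ≥ |Q| ≥ δ + k + 2`.  If `m = δ - |S| ≥ 1` then `|Q| m ≥ |Q| + m - 1 ≥ |S| + k + 1 + m = δ + k + 1`.
So `ω ≥ δ + k + 1`, `δ ≥ n - 1 - Δ`. -/
def SpecTWB : Prop :=
  ∀ (V : Type) [Fintype V] [DecidableEq V] (G : SimpleGraph V) [DecidableRel G.Adj],
    Al G 2 Finset.univ → ∀ (k : ℕ) (S : Finset V) (f : V → V),
      (∀ x y, x ∉ S → y ∉ S → Gᶜ.Adj x y → f x = f y) →
      S.card + k + 2 ≤ (Finset.univ.filter fun q =>
        Odd (Finset.univ.filter fun x => x ∉ S ∧ f x = q).card).card →
      Fintype.card V + k ≤ G.cliqueNum + G.maxDegree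

/-- The Tutte-Berge formula (proved: `SG/TBF.lean` of MP_ded8ec_lc). -/
def SpecTB : Prop :=
  ∀ (P : Type) [Fintype P] [DecidableEq P] (H : SimpleGraph P) (k : ℕ)
    (_ : Even (Fintype.card P + k))
    (_ : ¬ ∃ μ : P → P, (∀ x, μ (μ x) = x) ∧ (∀ x, μ x ≠ x → H.Adj x (μ x)) ∧
      (Finset.univ.filter fun x => μ x = x).card ≤ k),
    ∃ (S : Finset P) (f : P → P), (∀ x y, x ∉ S → y ∉ S → H.Adj x y → f x = f y) ∧
      S.card + k + 2 ≤ (Finset.univ.filter fun q =>
        Odd (Finset.univ.filter fun x => x ∉ S ∧ f x = q).card).card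

/-- MODULE TWO (70 lines).  USES TB, TWA, TWB.  Reed's bound for graphs with independence number `≤ 2`.
PROOF.  `V` empty: `c = 0`.  Let `v` have degree `Δ`; its `n - 1 - Δ` non-neighbours `≠ v` form a clique (`Al`), so
`n ≤ ω + Δ + 1`.  Let `E = 2 * ((ω + Δ + 2) / 2)`, so `ω + Δ + 1 ≤ E ≤ ω + Δ + 2`, and `k = E - n`, `n + k = E`.  If there is
an involution `μ` as in TB for `H = Gᶜ`, TWA gives the colouring.  If not, TB and TWB give `n + k ≤ ω + Δ`,
a contradiction. -/
def SpecTWO : Prop :=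
  ∀ (V : Type) [Fintype V] [DecidableEq V] (G : SimpleGraph V) [DecidableRel G.Adj],
    Al G 2 Finset.univ → ∃ c : ℕ, Clr G Finset.univ c ∧ 2 * c ≤ G.cliqueNum + G.maxDegree + 2

/-- MODULE FIN (100 lines).  USES AVG, HRM, TWO.  The theorem.
PROOF.  `α = G.indepNum`, `I` an independent set with `α` elements (`SimpleGraph.exists_isNIndepSet_indepNum`);
`Al G α univ`.  `α = 0`: `V` is empty, `c = 0`.  `α = 1`: `G` is complete, `c = n = ω`.  `α ≥ 2`: HRM with `k = j = α`,
`R = univ`.  (2): `c ≤ (ω + Δ + 1) / 2`, `Colorable.mono`.  (3): `α ≤ 2`: TWO; `α ≥ 3`: `9 (2 H_α - 1) ≤ 8 α` by induction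
(`α = 3`: `H_3 = 11/6`, equality; the step adds `18 / (α+1) ≤ 8`), then (2). -/
def SpecFIN : Prop :=
  ∀ (V : Type) [Fintype V] [DecidableEq V] (G : SimpleGraph V) [DecidableRel G.Adj],
    (∀ u v : V, ∃ φ : G ≃g G, φ u = v) →
    (∃ c : ℕ, G.Colorable c ∧ 2 * (c : ℚ) ≤ G.cliqueNum +
      (2 * harmonic G.indepNum - 1) * (Fintype.card V : ℚ) / G.indepNum) ∧
    ((2 * harmonic G.indepNum - 1) * (Fintype.card V : ℚ) ≤ G.indepNum * (G.maxDegree + 1) →
      G.Colorable ((G.cliqueNum + G.maxDegree + 1) / 2)) ∧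
    (8 * Fintype.card V ≤ 9 * (G.maxDegree + 1) →
      G.chromaticNumber ≤
        ((⌈(((G.cliqueNum + G.maxDegree + 1 : ℕ) : ℚ)) / 2⌉₊ : ℕ) : ℕ∞))

end Pool.Agent.Lib.MPb63a06.DV
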