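import Pool.Agent.Lib.MP_b63a06_co.DV.Spec

/-!
# MP_b63a06_co: Reed's bound for dense vertex-transitive graphs, second part (captain helper37)

THEOREM (replaces part (3) of `DenseGraphs`).  Reed's bound `χ ≤ ⌈(ω + Δ + 1) / 2⌉` holds for every
vertex-transitive graph with `5 n ≤ 6 (Δ + 1)` (so far `8 n ≤ 9 (Δ + 1)`).

IDEA.  Only independence number `3` needs a new argument (`(2 H_α - 1) / α ≤ 19/24 ≤ 5/6` for `α ≥ 4`).
Let every vertex be in exactly `r ≥ 1` independent triples.  A family of disjoint independent triples
with the greatest number `T` of members satisfies `6 T ≥ n`: for a member `τ` at most `r + 1` triples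
have one point in `τ` and two points off the family (`XIN`, exchange argument), now count (`CTG`).
The rest has no independent triple; pairs and a clique (`GRE`) give
`2 χ ≤ 2 T + ω + (n - 3 T) = ω + n - T ≤ ω + 5 n / 6`.

Module `XXX` is the file `DV/XXX.lean` with `import Pool.Agent.Lib.MP_b63a06_co.DV.SpecB` only,
namespace `Pool.Agent.Lib.MPb63a06.DV`, `theorem specXXX (hYYY : SpecYYY) ... : SpecXXX` (the
modules named after USES, in this order), own lemmas in a namespace `XXXM`.  All modules are
independent.  No double-quote characters.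
-/

set_option autoImplicit false

namespace Pool.Agent.Lib.MPb63a06.DV

/-- an independent triple -/
def Tri {V : Type} (G : SimpleGraph V) (s : Finset V) : Prop := s.card = 3 ∧ G.IsIndepSet (s : Set V)

open Classical in
/-- the independent triples -/
noncomputable def trip {V : Type} [Fintype V] (G : SimpleGraph V) : Finset (Finset V) :=
  Finset.univ.filter fun s => Tri G s

open Classical in
/-- the number of the independent triples which contain `v` -/
noncomputable def deg3 {V : Type} [Fintype V] (G : SimpleGraph V) (v : V) : ℕ :=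
  ((trip G).filter fun s => v ∈ s).card

/-- the vertices in no member of the family `F` -/
def rest {V : Type} [Fintype V] [DecidableEq V] (F : Finset (Finset V)) : Finset V :=
  Finset.univ \ F.biUnion id

/-- a family of disjoint independent triples which cannot be enlarged, not even after the removal of
one member -/
structure Pk {V : Type} [Fintype V] [DecidableEq V] (G : SimpleGraph V)
    (F : Finset (Finset V)) : Prop where
  tri : ∀ s ∈ F, Tri G s
  dis : ∀ s ∈ F, ∀ t ∈ F, s ≠ t → Disjoint s t
  res : Al G 2 (rest F)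
  exch : ∀ τ ∈ F, ∀ s t, Tri G s → Tri G t → s ⊆ rest F ∪ τ → t ⊆ rest F ∪ τ → ¬ Disjoint s t

/-- MODULE MXF (110 lines).  Such a family exists.
PROOF.  Take a family of disjoint independent triples with the greatest number of members (the empty
family is one; `Finset.exists_max_image` on the filtered powerset, or `Nat.findGreatest`).  If an
independent subset of `rest F` had at least three elements, a subset of three elements could be added.
If `s`, `t` are disjoint triples in `rest F ∪ τ`: `(F.erase τ) ∪ {s, t}` has one member more; `s`, `t`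
are disjoint from the other members, different from them, and `s ≠ t` as they are not empty. -/
def SpecMXF : Prop :=
  ∀ (V : Type) [Fintype V] [DecidableEq V] (G : SimpleGraph V), ∃ F, Pk G F

/-- MODULE XIN (200 lines).  The exchange lemma.
PROOF.  Let `L` be the set of the triples in question.  For `s ∈ L` let `p s` be its point in `τ` and
`e s = s ∩ R`, a pair of non-adjacent vertices.  If `p s ≠ p t` then `e s`, `e t` are not disjoint (else
`s`, `t` would be disjoint).
CASE A: `p s = p s' = x` and `e s = {a, b}`, `e s' = {c, d}` are disjoint for some `s`, `s'` in `L`.  Let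
`t ∈ L`, `p t ≠ x`.  `e t` meets both, so `e t` is one of `ac, ad, bc, bd`.  Two different ones of these
which occur are disjoint: e.g. `ac` and `ad` would make `{a, c, d}` an independent triple in `R`
(`Al G 2 R`).  So for `t ≠ t'` in `L` with `p t, p t' ≠ x`: either `e t = e t'` and `p t ≠ p t'`, or `e t`, `e t'`
are disjoint and `p t = p t'`.  As `p t` has only two values, there are at most two such `t` (of
three, two would have equal `p` and, for the third, ...: if `p t1 = p t2` then `e t1`, `e t2` are
disjoint, and `e t3` is equal to one of them or `p t3 = p t1` and it is disjoint from both, but only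
two of the four pairs can be disjoint and occur; if `e t3 = e t1` then `p t3 ≠ p t1 = p t2`, so
`e t3 = e t2 = e t1`, contradiction).  The members of `L` with `p = x` together with `τ` contain `x`: at
most `r - 1` of them.  So `|L| ≤ r + 1`.
CASE B: otherwise the `e s`, `s ∈ L`, are pairwise not disjoint.  If `L` is not empty they have a common
element `c`: let `e s1 = {a, b}`; if some `e s2` does not contain `a`, then `e s2 = {b, c}`; if some
`e s3` does not contain `b`, then `e s3 = {a, c}`, and `{a, b, c}` would be an independent triple in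
`R`.  All members of `L` contain this common element: `|L| ≤ r`. -/
def SpecXIN : Prop :=
  ∀ (V : Type) [Fintype V] [DecidableEq V] (G : SimpleGraph V) (R τ : Finset V) (r : ℕ),
    Al G 2 R → Tri G τ → Disjoint τ R →
    (∀ s t, Tri G s → Tri G t → s ⊆ R ∪ τ → t ⊆ R ∪ τ → ¬ Disjoint s t) →
    (∀ v, deg3 G v ≤ r) →
    ((trip G).filter fun s => s ⊆ R ∪ τ ∧ (s ∩ τ).card = 1).card ≤ r + 1

/-- MODULE DEG (60 lines).  PROOF.  An automorphism `φ` with `φ u = v` maps the triples which contain
`u` bijectively to those which contain `v` (`Finset.card_bij` with `s ↦ s.map φ`, or an injection and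
symmetry). -/
def SpecDEG : Prop :=
  ∀ (V : Type) [Fintype V] [DecidableEq V] (G : SimpleGraph V),
    (∀ u v : V, ∃ φ : G ≃g G, φ u = v) → ∀ u v : V, deg3 G u = deg3 G v

/-- MODULE CTG (180 lines).  USES XIN.  The counting.
PROOF.  `W = F.biUnion id`, `|W| = 3 T`, `T = |F|`, `P = trip G`.  Double counting:
`∑ s ∈ P, |s ∩ W| = ∑ w ∈ W, deg3 w = 3 T r` and `3 |P| = n r`.  Every `s ∈ P` meets `W` (`Pk.res`).  Let `P1`
be the set of the `s ∈ P` with `|s ∩ W| = 1`.  A member of `F` is in `P`, not in `P1`, with
`|s ∩ W| = 3`.  So `∑ s ∈ P, |s ∩ W| ≥ |P1| + 2 (|P| - |P1|) + T`.  For `s ∈ P1` the point of `s ∩ W` is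
in one `τ ∈ F`, and then `s ⊆ rest F ∪ τ`, `|s ∩ τ| = 1`: so `|P1| ≤ T (r + 1)` by XIN (with
`R = rest F`, `Finset.card_biUnion_le`).  Together `3 T r ≥ 2 |P| - T (r + 1) + T`, `4 T r ≥ 2 |P|`,
`12 T r ≥ 2 n r`, and `r ≥ 1`. -/
def SpecCTG : Prop :=
  ∀ (V : Type) [Fintype V] [DecidableEq V] (G : SimpleGraph V) (F : Finset (Finset V)) (r : ℕ),
    Pk G F → 1 ≤ r → (∀ v, deg3 G v = r) → Fintype.card V ≤ 6 * F.card

/-- MODULE COL (90 lines).  USES GRE.  The colouring.
PROOF.  GRE for `rest F` gives `c0` colours; number the members of `F` (`Finset.equivFin`) and give the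
colour `c0 + i` to the vertices of the `i`-th member.  `|rest F| = n - 3 |F|` (`Finset.card_biUnion`). -/
def SpecCOL : Prop :=
  ∀ (V : Type) [Fintype V] [DecidableEq V] (G : SimpleGraph V) (F : Finset (Finset V)),
    Pk G F → ∃ c : ℕ, Clr G Finset.univ c ∧ 2 * c + F.card ≤ G.cliqueNum + Fintype.card V

/-- MODULE FIB (110 lines).  USES FIN, TWO, MXF, DEG, CTG, COL.  The theorem.
PROOF.  Parts 1, 2 from FIN.  Part 3: `α ≤ 2`: TWO.  `α ≥ 4`: `6 (2 H_α - 1) ≤ 5 α` (`H_4 = 25/12`; the step
adds `12 / (α + 1) ≤ 5`), then part 2.  `α = 3`: there is an independent triple, so `deg3` is a constant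
`r ≥ 1`; `F` from MXF, `n ≤ 6 |F|` (CTG), and COL: `12 c ≤ 6 ω + 5 n ≤ 6 (ω + Δ + 1)`. -/
def SpecFIB : Prop :=
  ∀ (V : Type) [Fintype V] [DecidableEq V] (G : SimpleGraph V) [DecidableRel G.Adj],
    (∀ u v : V, ∃ φ : G ≃g G, φ u = v) →
    (∃ c : ℕ, G.Colorable c ∧ 2 * (c : ℚ) ≤ G.cliqueNum +
      (2 * harmonic G.indepNum - 1) * (Fintype.card V : ℚ) / G.indepNum) ∧
    ((2 * harmonic G.indepNum - 1) * (Fintype.card V : ℚ) ≤ G.indepNum * (G.maxDegree + 1) →
      G.Colorable ((G.cliqueNum + G.maxDegree + 1) / 2)) ∧
    (5 * Fintype.card V ≤ 6 * (G.maxDegree + 1) →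
      G.chromaticNumber ≤
        ((⌈(((G.cliqueNum + G.maxDegree + 1 : ℕ) : ℚ)) / 2⌉₊ : ℕ) : ℕ∞))

end Pool.Agent.Lib.MPb63a06.DV
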